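import Mathlib

/-! Board LQ, module Lim: two lemmas on limits at infinity. -/

namespace Pool.Agent.Lib.MP_95cf14_ag.LQ

open Filter in
theorem limLemma (u l : ℝ → ℝ) (x₀ : ℝ) (hu : ∀ x x', x ≠ x₀ → x' ≠ x₀ → x < x' → u x' < u x)
    (hlr : MonotoneOn l (Set.Ioi x₀)) (hll : MonotoneOn l (Set.Iio x₀)) (h1 : ∀ x, x₀ < x → l x ≤ u x)
    (h2 : ∀ x, x < x₀ → u x ≤ l x)
    (hS : ∀ L, Filter.Tendsto (fun x => u x + l x) Filter.atTop (nhds L) →
      Filter.Tendsto (fun x => u x + l x) Filter.atBot (nhds L))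
    (hP : ∀ L, Filter.Tendsto (fun x => u x * l x) Filter.atTop (nhds L) →
      Filter.Tendsto (fun x => u x * l x) Filter.atBot (nhds L)) : False := by
  have ur : ∀ x x', x₀ < x → x ≤ x' → u x' ≤ u x := fun x x' hx hxx => by
    rcases hxx.eq_or_lt with h | h
    · rw [h]
    · exact (hu x x' hx.ne' (hx.trans h).ne' h).le
  have ul : ∀ x x', x' < x₀ → x ≤ x' → u x' ≤ u x := fun x x' hx hxx => by
    rcases hxx.eq_or_lt with h | h
    · rw [h]
    · exact (hu x x' (h.trans hx).ne hx.ne h).le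
  have e1 : ∀ x : ℝ, x₀ < max x (x₀ + 1) := fun x => lt_of_lt_of_le (lt_add_one x₀) (le_max_right _ _)
  have e2 : ∀ x : ℝ, min x (x₀ - 1) < x₀ := fun x => lt_of_le_of_lt (min_le_right _ _) (sub_one_lt x₀)
  obtain ⟨B, hB⟩ : ∃ B, Tendsto u atTop (nhds B) := by
    have ha : Antitone fun x => u (max x (x₀ + 1)) := fun x y hxy => ur _ _ (e1 x) (max_le_max_right _ hxy)
    have hb : BddBelow (Set.range fun x => u (max x (x₀ + 1))) := by
      refine ⟨l (x₀ + 1), ?_⟩
      rintro _ ⟨x, rfl⟩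
      exact (hlr (lt_add_one x₀) (e1 x) (le_max_right _ _)).trans (h1 _ (e1 x))
    refine ⟨_, (tendsto_atTop_ciInf ha hb).congr' ?_⟩
    filter_upwards [eventually_ge_atTop (x₀ + 1)] with x hx
    rw [max_eq_left hx]
  obtain ⟨A, hA⟩ : ∃ A, Tendsto l atTop (nhds A) := by
    have ha : Monotone fun x => l (max x (x₀ + 1)) := fun x y hxy => hlr (e1 x) (e1 y) (max_le_max_right _ hxy)
    have hb : BddAbove (Set.range fun x => l (max x (x₀ + 1))) := by
      refine ⟨u (x₀ + 1), ?_⟩
      rintro _ ⟨x, rfl⟩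
      exact (h1 _ (e1 x)).trans (ur _ _ (lt_add_one x₀) (le_max_right _ _))
    refine ⟨_, (tendsto_atTop_ciSup ha hb).congr' ?_⟩
    filter_upwards [eventually_ge_atTop (x₀ + 1)] with x hx
    rw [max_eq_left hx]
  obtain ⟨A', hA'⟩ : ∃ A, Tendsto u atBot (nhds A) := by
    have ha : Antitone fun x => u (min x (x₀ - 1)) := fun x y hxy => ul _ _ (e2 y) (min_le_min_right _ hxy)
    have hb : BddAbove (Set.range fun x => u (min x (x₀ - 1))) := by
      refine ⟨l (x₀ - 1), ?_⟩
      rintro _ ⟨x, rfl⟩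
      exact (h2 _ (e2 x)).trans (hll (e2 x) (sub_one_lt x₀) (min_le_right _ _))
    refine ⟨_, (tendsto_atBot_ciSup ha hb).congr' ?_⟩
    filter_upwards [eventually_le_atBot (x₀ - 1)] with x hx
    rw [min_eq_left hx]
  obtain ⟨B', hB'⟩ : ∃ B, Tendsto l atBot (nhds B) := by
    have ha : Monotone fun x => l (min x (x₀ - 1)) := fun x y hxy => hll (e2 x) (e2 y) (min_le_min_right _ hxy)
    have hb : BddBelow (Set.range fun x => l (min x (x₀ - 1))) := by
      refine ⟨u (x₀ - 1), ?_⟩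
      rintro _ ⟨x, rfl⟩
      exact (ul _ _ (sub_one_lt x₀) (min_le_right _ _)).trans (h2 _ (e2 x))
    refine ⟨_, (tendsto_atBot_ciInf ha hb).congr' ?_⟩
    filter_upwards [eventually_le_atBot (x₀ - 1)] with x hx
    rw [min_eq_left hx]
  have hAB : A ≤ B := le_of_tendsto_of_tendsto hA hB (by
    filter_upwards [eventually_gt_atTop x₀] with x hx using h1 x hx)
  have hAB' : A' ≤ B' := le_of_tendsto_of_tendsto hA' hB' (by
    filter_upwards [eventually_lt_atBot x₀] with x hx using h2 x hx)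
  have hs : A' + B' = B + A := tendsto_nhds_unique (hA'.add hB') (hS _ (hB.add hA))
  have hp : A' * B' = B * A := tendsto_nhds_unique (hA'.mul hB') (hP _ (hB.mul hA))
  have hBu : B ≤ u (x₀ + 1) := le_of_tendsto hB (by
    filter_upwards [eventually_ge_atTop (x₀ + 1)] with x hx using ur _ _ (lt_add_one x₀) hx)
  have hAu : u (x₀ - 1) ≤ A' := ge_of_tendsto hA' (by
    filter_upwards [eventually_le_atBot (x₀ - 1)] with x hx using ul _ _ (sub_one_lt x₀) hx)
  have hlt : u (x₀ + 1) < u (x₀ - 1) := hu _ _ (sub_one_lt x₀).ne (lt_add_one x₀).ne' (by linarith)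
  have hsq : (B - A) ^ 2 = (B' - A') ^ 2 := by
    have h3 : (B - A) ^ 2 = (B + A) ^ 2 - 4 * (B * A) := by ring
    rw [h3, ← hs, ← hp]
    ring
  have hd : B - A = B' - A' := by
    have h3 := (sq_eq_sq₀ (sub_nonneg.2 hAB) (sub_nonneg.2 hAB')).1 hsq
    exact h3
  linarith

theorem rat (P Q : Polynomial ℝ) (hQ : Q ≠ 0) (M : ℝ)
    (h : Filter.Tendsto (fun x => P.eval x / Q.eval x) Filter.atTop (nhds M)) :
    Filter.Tendsto (fun x => P.eval x / Q.eval x) Filter.atBot (nhds M) := by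
  open Polynomial in
  obtain ⟨N, hN⟩ : ∃ N : ℝ[X], N = P - C M * Q := ⟨_, rfl⟩
  have hev : ∀ x, Polynomial.eval x Q ≠ 0 → Polynomial.eval x N / Polynomial.eval x Q =
      Polynomial.eval x P / Polynomial.eval x Q - M := fun x hx => by
    rw [hN, Polynomial.eval_sub, Polynomial.eval_mul, Polynomial.eval_C, sub_div, mul_div_cancel_right₀ _ hx]
  have hroots : ∃ R : ℝ, ∀ x, R < |x| → Polynomial.eval x Q ≠ 0 := by
    obtain ⟨R, hR⟩ := (Q.roots.toFinset.image fun x => |x|).exists_le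
    refine ⟨R, fun x hx h0 => ?_⟩
    have h3 : |x| ≤ R := hR _ (Finset.mem_image_of_mem _ (by
      rw [Multiset.mem_toFinset, Polynomial.mem_roots hQ]
      exact h0))
    exact absurd hx (not_lt.2 h3)
  obtain ⟨R, hR⟩ := hroots
  have h0 : Filter.Tendsto (fun x => Polynomial.eval x N / Polynomial.eval x Q) Filter.atTop (nhds 0) := by
    have h3 := h.sub_const M
    rw [sub_self] at h3
    refine h3.congr' ?_
    filter_upwards [Filter.eventually_gt_atTop R] with x hx
    rw [hev x (hR x (lt_of_lt_of_le hx (le_abs_self x)))]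
  rw [Polynomial.div_tendsto_zero_iff_degree_lt _ _ hQ] at h0
  have hcc : ∀ S : Polynomial ℝ, (S.comp (-Polynomial.X)).comp (-Polynomial.X) = S := fun S => by
    rw [Polynomial.comp_assoc, Polynomial.neg_comp, Polynomial.X_comp, neg_neg, Polynomial.comp_X]
  have hQ' : Q.comp (-Polynomial.X) ≠ 0 := fun h3 => hQ (by rw [← hcc Q, h3, Polynomial.zero_comp])
  have hnd : ∀ S : Polynomial ℝ, (S.comp (-Polynomial.X)).natDegree = S.natDegree := fun S => by
    rw [Polynomial.natDegree_comp, Polynomial.natDegree_neg, Polynomial.natDegree_X, mul_one]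
  have hdeg : (N.comp (-Polynomial.X)).degree < (Q.comp (-Polynomial.X)).degree := by
    by_cases hN0 : N = 0
    · rw [hN0, Polynomial.zero_comp, Polynomial.degree_zero, bot_lt_iff_ne_bot, Ne, Polynomial.degree_eq_bot]
      exact hQ'
    · refine Polynomial.degree_lt_degree ?_
      rw [hnd, hnd]
      exact Polynomial.natDegree_lt_natDegree hN0 h0
  have h4 := (Polynomial.div_tendsto_zero_iff_degree_lt _ _ hQ').2 hdeg
  have h5 := h4.comp Filter.tendsto_neg_atBot_atTop
  have h6 : Filter.Tendsto (fun x => Polynomial.eval x P / Polynomial.eval x Q - M) Filter.atBot (nhds 0) := by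
    refine h5.congr' ?_
    filter_upwards [Filter.eventually_lt_atBot (-R)] with x hx
    have h7 : R < |x| := lt_of_lt_of_le (by linarith) (neg_le_abs x)
    rw [← hev x (hR x h7)]
    simp only [Function.comp, Polynomial.eval_comp, Polynomial.eval_neg, Polynomial.eval_X, neg_neg]
  have h7 := h6.add_const M
  simpa using h7

end Pool.Agent.Lib.MP_95cf14_ag.LQ
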