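import Pool.Agent.Lib.MP_95cf14_ag.LQ.Defs

/-! Three symmetries of the data. -/

namespace Pool.Agent.Lib.MP_95cf14_ag.LQ

variable {a b c da db dc : ℝ → ℝ} {q qx qy : ℝ × ℝ → ℝ}

private theorem mir_der {f df : ℝ → ℝ} (h : ∀ x, HasDerivAt f (df x) x) (x : ℝ) :
    HasDerivAt (fun x => f (-x)) (-df (-x)) x := by
  have h1 : HasDerivAt (fun x : ℝ => -x) (-1) x := hasDerivAt_neg x
  have h2 := (h (-x)).comp x h1
  exact h2.congr_deriv (by ring)

private theorem comp_der (e f : ℝ)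
    (hq : ∀ z, HasFDerivAt q (qx z • ContinuousLinearMap.fst ℝ ℝ ℝ +
      qy z • ContinuousLinearMap.snd ℝ ℝ ℝ) z) (z : ℝ × ℝ) :
    HasFDerivAt (fun z : ℝ × ℝ => -q (e * z.1, f * z.2))
      ((-(e * qx (e * z.1, f * z.2))) • ContinuousLinearMap.fst ℝ ℝ ℝ +
      (-(f * qy (e * z.1, f * z.2))) • ContinuousLinearMap.snd ℝ ℝ ℝ) z := by
  have h1 : HasFDerivAt (fun z : ℝ × ℝ => (e * z.1, f * z.2))
      ((e • ContinuousLinearMap.fst ℝ ℝ ℝ).prod (f • ContinuousLinearMap.snd ℝ ℝ ℝ)) z :=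
    (hasFDerivAt_fst.const_mul e).prodMk (hasFDerivAt_snd.const_mul f)
  have h2 := ((hq (e * z.1, f * z.2)).comp z h1).neg
  refine h2.congr_fderiv ?_
  apply ContinuousLinearMap.ext
  intro w
  change -(qx (e * z.1, f * z.2) * (e * w.1) + qy (e * z.1, f * z.2) * (f * w.2)) =
    (-(e * qx (e * z.1, f * z.2))) * w.1 + (-(f * qy (e * z.1, f * z.2))) * w.2
  ring

theorem negD (h : Dat a b c da db dc q qx qy) : Dat (fun x => -a x) (fun x => -b x) (fun x => -c x) (fun x => -da x)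
    (fun x => -db x) (fun x => -dc x) (fun z => -q z) (fun z => -qx z) (fun z => -qy z) where
  ha x := (h.ha x).neg
  hb x := (h.hb x).neg
  hc x := (h.hc x).neg
  hq z := by
    have h1 := comp_der 1 1 h.hq z
    simpa only [one_mul] using h1
  ca := h.ca.neg
  cb := h.cb.neg
  cc := h.cc.neg
  hJ x y := by
    have := h.hJ x y
    nlinarith
  hu x K hy := by
    obtain ⟨⟨y, h1⟩, y', h2⟩ := h.hu x (-K) (fun y => neg_ne_zero.1 (hy y))
    exact ⟨⟨y', by linarith⟩, y, by linarith⟩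

theorem mirD (h : Dat a b c da db dc q qx qy) : Dat (fun x => a (-x)) (fun x => b (-x)) (fun x => c (-x))
    (fun x => -da (-x)) (fun x => -db (-x)) (fun x => -dc (-x)) (fun z => -q (-z.1, z.2))
    (fun z => qx (-z.1, z.2)) (fun z => -qy (-z.1, z.2)) where
  ha := mir_der h.ha
  hb := mir_der h.hb
  hc := mir_der h.hc
  hq z := by
    have h1 := comp_der (-1) 1 h.hq z
    simpa only [one_mul, neg_mul, neg_neg] using h1
  ca := (h.ca.comp continuous_neg).neg
  cb := (h.cb.comp continuous_neg).neg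
  cc := (h.cc.comp continuous_neg).neg
  hJ x y := by
    have := h.hJ (-x) y
    show 0 < (-da (-x) + -db (-x) * y + -dc (-x) * y ^ 2) * -qy (-x, y) -
      (b (-x) + 2 * c (-x) * y) * qx (-x, y)
    nlinarith
  hu x K hy := by
    obtain ⟨⟨y, h1⟩, y', h2⟩ := h.hu (-x) (-K) (fun y => neg_ne_zero.1 (hy y))
    exact ⟨⟨y', by show -q (-x, y') < K; linarith⟩, y, by show K < -q (-x, y); linarith⟩

theorem flipD (h : Dat a b c da db dc q qx qy) : Dat a (fun x => -b x) c da (fun x => -db x) dc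
    (fun z => -q (z.1, -z.2)) (fun z => -qx (z.1, -z.2)) (fun z => qy (z.1, -z.2)) where
  ha := h.ha
  hb x := (h.hb x).neg
  hc := h.hc
  hq z := by
    have h1 := comp_der 1 (-1) h.hq z
    simpa only [one_mul, neg_mul, neg_neg] using h1
  ca := h.ca
  cb := h.cb.neg
  cc := h.cc
  hJ x y := by
    have := h.hJ x (-y)
    show 0 < (da x + -db x * y + dc x * y ^ 2) * qy (x, -y) - (-b x + 2 * c x * y) * -qx (x, -y)
    nlinarith
  hu x K hy := by
    obtain ⟨⟨y, h1⟩, y', h2⟩ := h.hu x (-K) (fun y => by simpa using hy (-y))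
    refine ⟨⟨-y', ?_⟩, -y, ?_⟩
    · show -q (x, - -y') < K
      rw [neg_neg]
      linarith
    · show K < -q (x, - -y)
      rw [neg_neg]
      linarith

end Pool.Agent.Lib.MP_95cf14_ag.LQ
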