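import Pool.Agent.Lib.MP_95cf14_ag.LQ.Half
import Pool.Agent.Lib.MP_95cf14_ag.LQ.Sym
import Pool.Agent.Lib.MP_95cf14_ag.LQ.Lim

/-!
MP_95cf14_ag. The critical values do not tend to one finite limit at both ends.
-/

namespace Pool.Agent.Lib.MP_95cf14_ag.LQ

open Filter Topology

variable {a b c da db dc : ℝ → ℝ} {q qx qy : ℝ × ℝ → ℝ}

private theorem bad_crossLp (h : Dat a b c da db dc q qx qy) {C x₀ x₁ : ℝ} (h01 : x₁ < x₀) (h0 : c x₀ = 0)
    (hb : 0 < b x₀) (hc : ∀ x ∈ Set.Ico x₁ x₀, 0 < c x) (hd : ∀ x ∈ Set.Ioo x₁ x₀, 0 < dd a b c C x) :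
    q (x₀, (C - a x₀) / b x₀) < q (x₁, yu a b c C x₁) := by
  have h1 := crossR (mirD h) (C := C) (x₀ := -x₀) (x₁ := -x₁) (by linarith) (by simpa using h0)
    (by simpa using hb) (fun x hx => hc (-x) ⟨by linarith [hx.2], by linarith [hx.1]⟩)
    (fun x hx => hd (-x) ⟨by linarith [hx.2], by linarith [hx.1]⟩)
  simp only [yu, dd, neg_neg] at h1 ⊢
  exact neg_lt_neg_iff.mp h1

private theorem bad_crossLn (h : Dat a b c da db dc q qx qy) {C x₀ x₁ : ℝ} (h01 : x₁ < x₀) (h0 : c x₀ = 0)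
    (hb : 0 < b x₀) (hc : ∀ x ∈ Set.Ico x₁ x₀, c x < 0) (hd : ∀ x ∈ Set.Ioo x₁ x₀, 0 < dd a b c C x) :
    q (x₀, (C - a x₀) / b x₀) < q (x₁, yu a b c C x₁) := by
  have h1 := crossR (flipD (negD (mirD h))) (C := -C) (x₀ := -x₀) (x₁ := -x₁) (by linarith) (by simpa using h0)
    (by simpa using hb)
    (fun x hx => neg_pos.2 (hc (-x) ⟨by linarith [hx.2], by linarith [hx.1]⟩))
    (fun x hx => by
      have h2 := hd (-x) ⟨by linarith [hx.2], by linarith [hx.1]⟩
      unfold dd at h2 ⊢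
      nlinarith [h2])
  simp only [yu, dd, neg_neg] at h1 ⊢
  rw [show b x₁ ^ 2 - 4 * -c x₁ * (-a x₁ - -C) = b x₁ ^ 2 - 4 * c x₁ * (a x₁ - C) by ring,
    show (-C - -a x₀) / b x₀ = -((C - a x₀) / b x₀) by ring, show (2 : ℝ) * -c x₁ = -(2 * c x₁) by ring,
    div_neg, neg_neg, neg_neg] at h1
  exact neg_lt_neg_iff.mp h1

private theorem bad_yu_cont (x : ℝ) : Continuous fun C => yu a b c C x := by
  unfold yu dd
  fun_prop

private theorem bad_yl_cont (x : ℝ) : Continuous fun C => yl a b c C x := by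
  unfold yl dd
  fun_prop

theorem bad (h : Dat a b c da db dc q qx qy) {x₀ M : ℝ} (h0 : c x₀ = 0) (hb : 0 < b x₀)
    (hc : ∀ x ∈ Set.Ioi x₀, 0 < c x) (hm : StrictMonoOn (mm a b c) (Set.Ioi x₀)) (hd : ∀ x, 0 < dd a b c M x)
    (hleft : ((∀ x ∈ Set.Iio x₀, 0 < c x) ∧ StrictAntiOn (mm a b c) (Set.Iio x₀)) ∨
      ((∀ x ∈ Set.Iio x₀, c x < 0) ∧ StrictMonoOn (mm a b c) (Set.Iio x₀)))
    (ht : Filter.Tendsto (mm a b c) Filter.atTop (nhds M)) (hbt : Filter.Tendsto (mm a b c) Filter.atBot (nhds M))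
    (hS : ∀ L, Filter.Tendsto (fun x => q (x, yu a b c M x) + q (x, yl a b c M x)) Filter.atTop (nhds L) →
      Filter.Tendsto (fun x => q (x, yu a b c M x) + q (x, yl a b c M x)) Filter.atBot (nhds L))
    (hP : ∀ L, Filter.Tendsto (fun x => q (x, yu a b c M x) * q (x, yl a b c M x)) Filter.atTop (nhds L) →
      Filter.Tendsto (fun x => q (x, yu a b c M x) * q (x, yl a b c M x)) Filter.atBot (nhds L)) : False := by
  have hq : Continuous q := continuous_iff_continuousAt.2 fun z => (h.hq z).continuousAt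
  have hcr : ∀ x, x₀ < x → c x ≠ 0 := fun x hx => (hc x hx).ne'
  have hcl : ∀ x, x < x₀ → c x ≠ 0 := by
    intro x hx
    rcases hleft with ⟨h1, -⟩ | ⟨h1, -⟩
    · exact (h1 x hx).ne'
    · exact (h1 x hx).ne
  have hU : ∀ (x : ℝ) (F : Filter ℝ), F ≤ 𝓝 M →
      Tendsto (fun C => q (x, yu a b c C x)) F (𝓝 (q (x, yu a b c M x))) := fun x F hF =>
    ((hq.comp (continuous_const.prodMk (bad_yu_cont x))).tendsto M).mono_left hF
  have hL : ∀ (x : ℝ) (F : Filter ℝ), F ≤ 𝓝 M →
      Tendsto (fun C => q (x, yl a b c C x)) F (𝓝 (q (x, yl a b c M x))) := fun x F hF =>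
    ((hq.comp (continuous_const.prodMk (bad_yl_cont x))).tendsto M).mono_left hF
  refine limLemma (fun x => q (x, yu a b c M x)) (fun x => q (x, yl a b c M x)) x₀ ?_ ?_ ?_ ?_ ?_ hS hP
  · intro x x' hx hx' hxx
    change q (x', yu a b c M x') < q (x, yu a b c M x)
    rcases lt_or_gt_of_ne hx with h1 | h1
    · rcases lt_or_gt_of_ne hx' with h2 | h2
      · exact brU h hxx (fun t ht => hcl t (lt_of_le_of_lt ht.2 h2)) fun t _ => hd t
      · refine (crossR h h2 h0 hb (fun t ht => hc t ht.1) fun t _ => hd t).trans ?_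
        rcases hleft with ⟨h3, -⟩ | ⟨h3, -⟩
        · exact bad_crossLp h h1 h0 hb (fun t ht => h3 t ht.2) fun t _ => hd t
        · exact bad_crossLn h h1 h0 hb (fun t ht => h3 t ht.2) fun t _ => hd t
    · exact brU h hxx (fun t ht => hcr t (lt_of_lt_of_le h1 ht.1)) fun t _ => hd t
  · intro x hx x' hx' hle
    rcases hle.eq_or_lt with h1 | h1
    · rw [h1]
    · exact (brL h h1 (fun t ht => hcr t (lt_of_lt_of_le hx ht.1)) fun t _ => hd t).le
  · intro x hx x' hx' hle
    rcases hle.eq_or_lt with h1 | h1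
    · rw [h1]
    · exact (brL h h1 (fun t ht => hcl t (lt_of_le_of_lt ht.2 hx')) fun t _ => hd t).le
  · intro x hx
    have h1 : mm a b c x < M := by
      refine lt_of_lt_of_le (hm hx (show x₀ < x + 1 by linarith) (by linarith)) ?_
      refine ge_of_tendsto ht ((eventually_ge_atTop (x + 1)).mono fun t ht' => ?_)
      exact hm.monotoneOn (show x₀ < x + 1 by linarith) (show x₀ < t by linarith) ht'
    refine le_of_tendsto_of_tendsto (hL x (𝓝[<] M) nhdsWithin_le_nhds) (hU x (𝓝[<] M) nhdsWithin_le_nhds) ?_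
    filter_upwards [Ioo_mem_nhdsLT h1] with C hC
    obtain ⟨t, ht1, ht2⟩ := ((eventually_ge_atTop x).and (ht.eventually (lt_mem_nhds hC.2))).exists
    have hcon : ContinuousOn (mm a b c) (Set.Icc x t) := fun s hs =>
      (mm_cont h (hcr s (lt_of_lt_of_le hx hs.1))).continuousWithinAt
    obtain ⟨xC, hxC, hmC⟩ := intermediate_value_Icc ht1 hcon ⟨hC.1.le, ht2.le⟩
    have hlt : x < xC := by
      rcases hxC.1.eq_or_lt with h2 | h2
      · rw [← h2] at hmC
        exact absurd hmC hC.1.ne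
      · exact h2
    refine (jointR h hlt (fun s hs => hcr s (lt_of_lt_of_le hx hs.1)) (fun s hs => ?_) ?_).le
    · have h3 : x₀ < s := lt_trans hx hs.1
      rw [dd_eq (hcr s h3)]
      have h4 := hm h3 (show x₀ < xC from lt_trans hx hlt) hs.2
      have h5 := hc s h3
      have h6 : 0 < C - mm a b c s := by linarith
      positivity
    · rw [dd_eq (hcr xC (lt_trans hx hlt)), hmC, sub_self, mul_zero]
  · intro x hx
    rcases hleft with ⟨h3, hmono⟩ | ⟨h3, hmono⟩
    · have h1 : mm a b c x < M := by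
        refine lt_of_lt_of_le (hmono (show x - 1 < x₀ by linarith) hx (by linarith)) ?_
        refine ge_of_tendsto hbt ((eventually_le_atBot (x - 1)).mono fun t ht' => ?_)
        exact hmono.antitoneOn (show t < x₀ by linarith) (show x - 1 < x₀ by linarith) ht'
      refine le_of_tendsto_of_tendsto (hU x (𝓝[<] M) nhdsWithin_le_nhds) (hL x (𝓝[<] M) nhdsWithin_le_nhds) ?_
      filter_upwards [Ioo_mem_nhdsLT h1] with C hC
      obtain ⟨t, ht1, ht2⟩ := ((eventually_le_atBot x).and (hbt.eventually (lt_mem_nhds hC.2))).exists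
      have hcon : ContinuousOn (mm a b c) (Set.Icc t x) := fun s hs =>
        (mm_cont h (hcl s (lt_of_le_of_lt hs.2 hx))).continuousWithinAt
      obtain ⟨xC, hxC, hmC⟩ := intermediate_value_Icc' ht1 hcon ⟨hC.1.le, ht2.le⟩
      have hlt : xC < x := by
        rcases hxC.2.eq_or_lt with h2 | h2
        · rw [h2] at hmC
          exact absurd hmC hC.1.ne
        · exact h2
      refine (jointL h hlt (fun s hs => hcl s (lt_of_le_of_lt hs.2 hx)) (fun s hs => ?_) ?_).le
      · have h4 : s < x₀ := lt_trans hs.2 hx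
        rw [dd_eq (hcl s h4)]
        have h5 := hmono (show xC < x₀ from lt_trans hlt hx) h4 hs.1
        have h6 := h3 s h4
        have h7 : 0 < C - mm a b c s := by linarith
        positivity
      · rw [dd_eq (hcl xC (lt_trans hlt hx)), hmC, sub_self, mul_zero]
    · have h1 : M < mm a b c x := by
        refine lt_of_le_of_lt ?_ (hmono (show x - 1 < x₀ by linarith) hx (by linarith))
        refine le_of_tendsto hbt ((eventually_le_atBot (x - 1)).mono fun t ht' => ?_)
        exact hmono.monotoneOn (show t < x₀ by linarith) (show x - 1 < x₀ by linarith) ht'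
      refine le_of_tendsto_of_tendsto (hU x (𝓝[>] M) nhdsWithin_le_nhds) (hL x (𝓝[>] M) nhdsWithin_le_nhds) ?_
      filter_upwards [Ioo_mem_nhdsGT h1] with C hC
      obtain ⟨t, ht1, ht2⟩ := ((eventually_le_atBot x).and (hbt.eventually (gt_mem_nhds hC.1))).exists
      have hcon : ContinuousOn (mm a b c) (Set.Icc t x) := fun s hs =>
        (mm_cont h (hcl s (lt_of_le_of_lt hs.2 hx))).continuousWithinAt
      obtain ⟨xC, hxC, hmC⟩ := intermediate_value_Icc ht1 hcon ⟨ht2.le, hC.2.le⟩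
      have hlt : xC < x := by
        rcases hxC.2.eq_or_lt with h2 | h2
        · rw [h2] at hmC
          exact absurd hmC hC.2.ne'
        · exact h2
      refine (jointL h hlt (fun s hs => hcl s (lt_of_le_of_lt hs.2 hx)) (fun s hs => ?_) ?_).le
      · have h4 : s < x₀ := lt_trans hs.2 hx
        rw [dd_eq (hcl s h4)]
        have h5 := hmono (show xC < x₀ from lt_trans hlt hx) h4 hs.1
        have h6 := h3 s h4
        have h7 : C - mm a b c s < 0 := by linarith
        nlinarith [mul_pos_of_neg_of_neg h6 h7]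
      · rw [dd_eq (hcl xC (lt_trans hlt hx)), hmC, sub_self, mul_zero]

end Pool.Agent.Lib.MP_95cf14_ag.LQ
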