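import Pool.Agent.Lib.MP_95cf14_ag.LQ.Defs

/-! MP_95cf14_ag. `q` along the branches of a level curve of `p = a x + b x y + c x y^2`. -/

namespace Pool.Agent.Lib.MP_95cf14_ag.LQ

open Filter Topology

variable {a b c da db dc : ℝ → ℝ} {q qx qy : ℝ × ℝ → ℝ}

private theorem br_cont (h : Dat a b c da db dc q qx qy) :
    Continuous a ∧ Continuous b ∧ Continuous c ∧ Continuous q :=
  ⟨continuous_iff_continuousAt.2 fun x => (h.ha x).continuousAt,
    continuous_iff_continuousAt.2 fun x => (h.hb x).continuousAt,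
    continuous_iff_continuousAt.2 fun x => (h.hc x).continuousAt,
    continuous_iff_continuousAt.2 fun x => (h.hq x).continuousAt⟩

private theorem br_dd_cont (h : Dat a b c da db dc q qx qy) (C : ℝ) :
    Continuous fun x => dd a b c C x := by
  obtain ⟨h1, h2, h3, -⟩ := br_cont h
  exact (h2.pow 2).sub ((continuous_const.mul h3).mul (h1.sub continuous_const))

private theorem br_dd_diff (h : Dat a b c da db dc q qx qy) (C x : ℝ) :
    DifferentiableAt ℝ (fun x => dd a b c C x) x :=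
  ((h.hb x).differentiableAt.pow 2).sub
    (((h.hc x).differentiableAt.const_mul 4).mul ((h.ha x).differentiableAt.sub_const C))

private theorem br_lvl {C x s : ℝ} (hc : c x ≠ 0) (hs : s ^ 2 = dd a b c C x) :
    a x + b x * ((-b x + s) / (2 * c x)) + c x * ((-b x + s) / (2 * c x)) ^ 2 = C := by
  have h1 : s ^ 2 = b x ^ 2 - 4 * c x * (a x - C) := hs
  field_simp
  linear_combination h1

private theorem br_der (h : Dat a b c da db dc q qx qy) {C x Y' : ℝ} {Y : ℝ → ℝ}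
    (hY : HasDerivAt Y Y' x) (hl : ∀ᶠ z in 𝓝 x, a z + b z * Y z + c z * Y z ^ 2 = C) :
    HasDerivAt (fun x => q (x, Y x)) (qx (x, Y x) + qy (x, Y x) * Y') x ∧
    (b x + 2 * c x * Y x) * (qx (x, Y x) + qy (x, Y x) * Y') < 0 := by
  have h1 : HasDerivAt (fun z => a z + b z * Y z + c z * Y z ^ 2)
      (da x + (db x * Y x + b x * Y') + (dc x * Y x ^ 2 + c x * (2 * Y x * Y'))) x := by
    have e := ((h.ha x).add ((h.hb x).mul hY)).add ((h.hc x).mul (hY.pow 2))
    have e2 : HasDerivAt (fun z => a z + b z * Y z + c z * Y z ^ 2)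
      (da x + (db x * Y x + b x * Y') + (dc x * Y x ^ 2 + c x * (((2 : ℕ) : ℝ) * Y x ^ (2 - 1) * Y'))) x := e
    have e3 : (((2 : ℕ) : ℝ) * Y x ^ (2 - 1) * Y') = 2 * Y x * Y' := by norm_num
    rw [e3] at e2
    exact e2
  have h2 : HasDerivAt (fun z => a z + b z * Y z + c z * Y z ^ 2) 0 x :=
    (hasDerivAt_const x C).congr_of_eventuallyEq hl
  have h3 := h1.unique h2
  have h4 : HasDerivAt (fun x : ℝ => ((x, Y x) : ℝ × ℝ)) ((1, Y') : ℝ × ℝ) x :=
    (hasDerivAt_id x).prodMk hY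
  have h5 := (h.hq (x, Y x)).comp_hasDerivAt x h4
  have h6 : HasDerivAt (q ∘ fun x => (x, Y x)) (qx (x, Y x) + qy (x, Y x) * Y') x := by
    simpa using h5
  refine ⟨h6, ?_⟩
  have h7 := h.hJ x (Y x)
  have h8 : (b x + 2 * c x * Y x) * (qx (x, Y x) + qy (x, Y x) * Y') =
      -((da x + db x * Y x + dc x * Y x ^ 2) * qy (x, Y x) - (b x + 2 * c x * Y x) * qx (x, Y x)) := by
    linear_combination (qy (x, Y x)) * h3
  rw [h8]
  linarith

private theorem br_yu (h : Dat a b c da db dc q qx qy) {C x : ℝ} (hc : c x ≠ 0)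
    (hd : 0 < dd a b c C x) :
    (∃ Y', HasDerivAt (fun x => yu a b c C x) Y' x) ∧
    (∀ᶠ z in 𝓝 x, a z + b z * yu a b c C z + c z * yu a b c C z ^ 2 = C) ∧
    b x + 2 * c x * yu a b c C x = Real.sqrt (dd a b c C x) := by
  obtain ⟨-, -, h3, -⟩ := br_cont h
  refine ⟨?_, ?_, ?_⟩
  · have h1 : DifferentiableAt ℝ (fun x => yu a b c C x) x := by
      unfold yu
      exact ((h.hb x).differentiableAt.neg.add ((br_dd_diff h C x).sqrt hd.ne')).div
        ((h.hc x).differentiableAt.const_mul 2) (mul_ne_zero two_ne_zero hc)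
    exact ⟨_, h1.hasDerivAt⟩
  · filter_upwards [h3.continuousAt.eventually_ne hc,
      (br_dd_cont h C).continuousAt.eventually (lt_mem_nhds hd)] with z hz1 hz2
    exact br_lvl hz1 (Real.sq_sqrt hz2.le)
  · unfold yu
    field_simp
    ring

private theorem br_yl (h : Dat a b c da db dc q qx qy) {C x : ℝ} (hc : c x ≠ 0)
    (hd : 0 < dd a b c C x) :
    (∃ Y', HasDerivAt (fun x => yl a b c C x) Y' x) ∧
    (∀ᶠ z in 𝓝 x, a z + b z * yl a b c C z + c z * yl a b c C z ^ 2 = C) ∧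
    b x + 2 * c x * yl a b c C x = -Real.sqrt (dd a b c C x) := by
  obtain ⟨-, -, h3, -⟩ := br_cont h
  refine ⟨?_, ?_, ?_⟩
  · have h1 : DifferentiableAt ℝ (fun x => yl a b c C x) x := by
      unfold yl
      exact ((h.hb x).differentiableAt.neg.sub ((br_dd_diff h C x).sqrt hd.ne')).div
        ((h.hc x).differentiableAt.const_mul 2) (mul_ne_zero two_ne_zero hc)
    exact ⟨_, h1.hasDerivAt⟩
  · filter_upwards [h3.continuousAt.eventually_ne hc,
      (br_dd_cont h C).continuousAt.eventually (lt_mem_nhds hd)] with z hz1 hz2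
    have h4 := br_lvl (a := a) (b := b) (c := c) (C := C) (x := z)
      (s := -Real.sqrt (dd a b c C z)) hz1 (by rw [neg_sq]; exact Real.sq_sqrt hz2.le)
    exact h4
  · unfold yl
    field_simp
    ring

private theorem br_yu_cont (h : Dat a b c da db dc q qx qy) (C : ℝ) {s : Set ℝ}
    (hc : ∀ x ∈ s, c x ≠ 0) : ContinuousOn (fun x => yu a b c C x) s := by
  obtain ⟨-, h2, h3, -⟩ := br_cont h
  unfold yu
  exact (h2.neg.add (br_dd_cont h C).sqrt).continuousOn.div (continuous_const.mul h3).continuousOn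
    fun x hx => mul_ne_zero two_ne_zero (hc x hx)

private theorem br_yl_cont (h : Dat a b c da db dc q qx qy) (C : ℝ) {s : Set ℝ}
    (hc : ∀ x ∈ s, c x ≠ 0) : ContinuousOn (fun x => yl a b c C x) s := by
  obtain ⟨-, h2, h3, -⟩ := br_cont h
  unfold yl
  exact (h2.neg.sub (br_dd_cont h C).sqrt).continuousOn.div (continuous_const.mul h3).continuousOn
    fun x hx => mul_ne_zero two_ne_zero (hc x hx)

theorem brU (h : Dat a b c da db dc q qx qy) {C x₁ x₂ : ℝ} (h12 : x₁ < x₂) (hc : ∀ x ∈ Set.Icc x₁ x₂, c x ≠ 0)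
    (hd : ∀ x ∈ Set.Ioo x₁ x₂, 0 < dd a b c C x) : q (x₂, yu a b c C x₂) < q (x₁, yu a b c C x₁) := by
  have hh : StrictAntiOn (fun x => q (x, yu a b c C x)) (Set.Icc x₁ x₂) := by
    apply strictAntiOn_of_deriv_neg (convex_Icc _ _)
    · exact (br_cont h).2.2.2.comp_continuousOn (continuousOn_id.prodMk (br_yu_cont h C hc))
    · intro x hx
      rw [interior_Icc] at hx
      obtain ⟨⟨Y', hY'⟩, h2, h3⟩ := br_yu h (hc x (Set.Ioo_subset_Icc_self hx)) (hd x hx)
      obtain ⟨h4, h5⟩ := br_der h hY' h2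
      rw [h4.deriv]
      rw [h3] at h5
      have h6 := Real.sqrt_pos.2 (hd x hx)
      by_contra hcon
      push Not at hcon
      have := mul_nonneg h6.le hcon
      linarith
  exact hh ⟨le_rfl, h12.le⟩ ⟨h12.le, le_rfl⟩ h12

theorem brL (h : Dat a b c da db dc q qx qy) {C x₁ x₂ : ℝ} (h12 : x₁ < x₂) (hc : ∀ x ∈ Set.Icc x₁ x₂, c x ≠ 0)
    (hd : ∀ x ∈ Set.Ioo x₁ x₂, 0 < dd a b c C x) : q (x₁, yl a b c C x₁) < q (x₂, yl a b c C x₂) := by
  have hh : StrictMonoOn (fun x => q (x, yl a b c C x)) (Set.Icc x₁ x₂) := by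
    apply strictMonoOn_of_deriv_pos (convex_Icc _ _)
    · exact (br_cont h).2.2.2.comp_continuousOn (continuousOn_id.prodMk (br_yl_cont h C hc))
    · intro x hx
      rw [interior_Icc] at hx
      obtain ⟨⟨Y', hY'⟩, h2, h3⟩ := br_yl h (hc x (Set.Ioo_subset_Icc_self hx)) (hd x hx)
      obtain ⟨h4, h5⟩ := br_der h hY' h2
      rw [h4.deriv]
      rw [h3] at h5
      have h6 := Real.sqrt_pos.2 (hd x hx)
      by_contra hcon
      push Not at hcon
      have := mul_nonneg h6.le (neg_nonneg.2 hcon)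
      linarith
  exact hh ⟨le_rfl, h12.le⟩ ⟨h12.le, le_rfl⟩ h12

theorem crossR (h : Dat a b c da db dc q qx qy) {C x₀ x₁ : ℝ} (h01 : x₀ < x₁) (h0 : c x₀ = 0) (hb : 0 < b x₀)
    (hc : ∀ x ∈ Set.Ioc x₀ x₁, 0 < c x) (hd : ∀ x ∈ Set.Ioo x₀ x₁, 0 < dd a b c C x) :
    q (x₁, yu a b c C x₁) < q (x₀, (C - a x₀) / b x₀) := by
  obtain ⟨k1, k2, k3, k4⟩ := br_cont h
  have hs : Real.sqrt (dd a b c C x₀) = b x₀ := by
    have : dd a b c C x₀ = b x₀ ^ 2 := by rw [dd, h0]; ring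
    rw [this, Real.sqrt_sq hb.le]
  have hden : b x₀ + Real.sqrt (dd a b c C x₀) ≠ 0 := by rw [hs]; linarith
  have hZc : ContinuousAt (fun x => 2 * (C - a x) / (b x + Real.sqrt (dd a b c C x))) x₀ :=
    (continuous_const.mul (continuous_const.sub k1)).continuousAt.div
      (k2.add (br_dd_cont h C).sqrt).continuousAt hden
  have hZ0 : 2 * (C - a x₀) / (b x₀ + Real.sqrt (dd a b c C x₀)) = (C - a x₀) / b x₀ := by
    rw [hs]
    field_simp
    ring
  have hZt : Tendsto (fun x => 2 * (C - a x) / (b x + Real.sqrt (dd a b c C x))) (𝓝[>] x₀)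
      (𝓝 ((C - a x₀) / b x₀)) := by
    rw [← hZ0]
    exact hZc.tendsto.mono_left nhdsWithin_le_nhds
  have hpos : ∀ᶠ x in 𝓝 x₀, b x + Real.sqrt (dd a b c C x) ≠ 0 :=
    (k2.add (br_dd_cont h C).sqrt).continuousAt.eventually_ne hden
  have hIoo : Set.Ioo x₀ x₁ ∈ 𝓝[>] x₀ := Ioo_mem_nhdsGT h01
  have hYt : Tendsto (fun x => yu a b c C x) (𝓝[>] x₀) (𝓝 ((C - a x₀) / b x₀)) := by
    refine hZt.congr' ?_
    filter_upwards [hIoo, hpos.filter_mono nhdsWithin_le_nhds] with x hx hx2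
    have hcx : c x ≠ 0 := (hc x ⟨hx.1, hx.2.le⟩).ne'
    have hsq : Real.sqrt (dd a b c C x) ^ 2 = b x ^ 2 - 4 * c x * (a x - C) :=
      Real.sq_sqrt (hd x hx).le
    rw [yu, div_eq_div_iff hx2 (mul_ne_zero two_ne_zero hcx)]
    linear_combination (-1 : ℝ) * hsq
  have hqt : Tendsto (fun x => q (x, yu a b c C x)) (𝓝[>] x₀) (𝓝 (q (x₀, (C - a x₀) / b x₀))) := by
    have h1 : Tendsto (fun x => ((x, yu a b c C x) : ℝ × ℝ)) (𝓝[>] x₀)
        (𝓝 (x₀, (C - a x₀) / b x₀)) :=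
      (tendsto_id.mono_left nhdsWithin_le_nhds).prodMk_nhds hYt
    exact (k4.continuousAt (x := (x₀, (C - a x₀) / b x₀))).tendsto.comp h1
  obtain ⟨m, hm⟩ : ∃ m, m = (x₀ + x₁) / 2 := ⟨_, rfl⟩
  have hm1 : x₀ < m := by rw [hm]; linarith
  have hm2 : m < x₁ := by rw [hm]; linarith
  have h5 : q (x₁, yu a b c C x₁) < q (m, yu a b c C m) :=
    brU h hm2 (fun x hx => (hc x ⟨by linarith [hx.1], hx.2⟩).ne')
      (fun x hx => hd x ⟨by linarith [hx.1], hx.2⟩)
  have h6 : q (m, yu a b c C m) ≤ q (x₀, (C - a x₀) / b x₀) := by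
    refine ge_of_tendsto hqt ?_
    filter_upwards [Ioo_mem_nhdsGT hm1] with x hx
    exact (brU h hx.2 (fun z hz => (hc z ⟨by linarith [hz.1, hx.1], by linarith [hz.2]⟩).ne')
      (fun z hz => hd z ⟨by linarith [hz.1, hx.1], by linarith [hz.2]⟩)).le
  exact h5.trans_le h6

private theorem br_joint {C x : ℝ} (h2 : dd a b c C x = 0) : yl a b c C x = yu a b c C x := by
  rw [yl, yu, h2, Real.sqrt_zero, sub_zero, add_zero]

theorem jointR (h : Dat a b c da db dc q qx qy) {C x₁ x₂ : ℝ} (h12 : x₁ < x₂) (hc : ∀ x ∈ Set.Icc x₁ x₂, c x ≠ 0)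
    (hd : ∀ x ∈ Set.Ioo x₁ x₂, 0 < dd a b c C x) (h2 : dd a b c C x₂ = 0) :
    q (x₁, yl a b c C x₁) < q (x₁, yu a b c C x₁) := by
  have h3 := brU h h12 hc hd
  have h4 := brL h h12 hc hd
  rw [br_joint h2] at h4
  exact h4.trans h3

theorem jointL (h : Dat a b c da db dc q qx qy) {C x₁ x₂ : ℝ} (h12 : x₁ < x₂) (hc : ∀ x ∈ Set.Icc x₁ x₂, c x ≠ 0)
    (hd : ∀ x ∈ Set.Ioo x₁ x₂, 0 < dd a b c C x) (h1 : dd a b c C x₁ = 0) :
    q (x₂, yu a b c C x₂) < q (x₂, yl a b c C x₂) := by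
  have h3 := brU h h12 hc hd
  have h4 := brL h h12 hc hd
  rw [br_joint h1] at h4
  exact h3.trans h4

end Pool.Agent.Lib.MP_95cf14_ag.LQ
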