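import Pool.Agent.Lib.MP_95cf14_ag.LC.Defs

/-! MP_95cf14_ag. `p = a x + b x y + c x y^2` and its level curves. -/

namespace Pool.Agent.Lib.MP_95cf14_ag.LQ

/-- `p = a x + b x y + c x y^2` and `q` have a positive Jacobian -/
structure Dat (a b c da db dc : ℝ → ℝ) (q qx qy : ℝ × ℝ → ℝ) : Prop where
  ha : ∀ x, HasDerivAt a (da x) x
  hb : ∀ x, HasDerivAt b (db x) x
  hc : ∀ x, HasDerivAt c (dc x) x
  hq : ∀ z, HasFDerivAt q (qx z • ContinuousLinearMap.fst ℝ ℝ ℝ + qy z • ContinuousLinearMap.snd ℝ ℝ ℝ) z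
  ca : Continuous da
  cb : Continuous db
  cc : Continuous dc
  hJ : ∀ x y, 0 < (da x + db x * y + dc x * y ^ 2) * qy (x, y) - (b x + 2 * c x * y) * qx (x, y)
  hu : ∀ x K, (∀ y, qy (x, y) ≠ 0) → (∃ y, q (x, y) < K) ∧ ∃ y, K < q (x, y)

/-- the critical value of `p` on the vertical line -/
noncomputable def mm (a b c : ℝ → ℝ) (x : ℝ) : ℝ := a x - b x ^ 2 / (4 * c x)

/-- the discriminant of the level `C` -/
def dd (a b c : ℝ → ℝ) (C x : ℝ) : ℝ := b x ^ 2 - 4 * c x * (a x - C)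

/-- the upper branch of the level `C` -/
noncomputable def yu (a b c : ℝ → ℝ) (C x : ℝ) : ℝ := (-b x + Real.sqrt (dd a b c C x)) / (2 * c x)

/-- the lower branch of the level `C` -/
noncomputable def yl (a b c : ℝ → ℝ) (C x : ℝ) : ℝ := (-b x - Real.sqrt (dd a b c C x)) / (2 * c x)

end Pool.Agent.Lib.MP_95cf14_ag.LQ
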