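import Pool.Agent.Lib.MP_95cf14_ag.LQ.Main
import Pool.Agent.Lib.MP_95cf14_ag.LC.Core
import Pool.Agent.Lib.MP_95cf14_ag.LC.Der
import Pool.Agent.Lib.MP_95cf14_ag.LC.Unb

/-!
# Reduction to `p = a x + b x y + c x y^2`
-/

namespace Pool.Agent.Lib.MP_95cf14_ag.LQ

open MvPolynomial Pool.Agent.Lib.MP_95cf14_ag.LC Filter

private theorem ev_ne {D : Polynomial ℝ} (hD : D ≠ 0) : (∀ᶠ x in atTop, D.eval x ≠ 0) ∧ ∀ᶠ x in atBot, D.eval x ≠ 0 := by
  have h1 : ∀ {Q : Polynomial ℝ}, Q ≠ 0 → ∀ᶠ x in atTop, Q.eval x ≠ 0 := by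
    intro Q hQ
    exact Q.eventually_no_roots hQ
  refine ⟨h1 hD, ?_⟩
  have hD' : D.comp (-Polynomial.X) ≠ 0 := by
    intro h0
    apply hD
    have h2 := congrArg (fun R => Polynomial.comp R (-Polynomial.X)) h0
    simpa [Polynomial.comp_assoc] using h2
  have h3 := tendsto_neg_atBot_atTop.eventually (h1 hD')
  filter_upwards [h3] with x hx
  simpa using hx

private theorem rat' (P Q : Polynomial ℝ) (hQ : Q ≠ 0) (M : ℝ)
    (h : Tendsto (fun x => P.eval x / Q.eval x) atBot (nhds M)) :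
    Tendsto (fun x => P.eval x / Q.eval x) atTop (nhds M) := by
  have hQ' : Q.comp (-Polynomial.X) ≠ 0 := by
    intro h0
    apply hQ
    have h2 := congrArg (fun R => Polynomial.comp R (-Polynomial.X)) h0
    simpa [Polynomial.comp_assoc] using h2
  have h1 := rat (P.comp (-Polynomial.X)) (Q.comp (-Polynomial.X)) hQ' M (by
    have h2 := h.comp tendsto_neg_atTop_atBot
    refine h2.congr fun x => ?_
    simp)
  have h3 := h1.comp tendsto_neg_atTop_atBot
  refine h3.congr fun x => ?_
  simp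

private theorem lm_poly {a b c : ℝ → ℝ} {A B D : Polynomial ℝ} (hA : ∀ x, a x = A.eval x) (hB : ∀ x, b x = B.eval x)
    (hC : ∀ x, c x = D.eval x) (hD : D ≠ 0) (R : MvPolynomial (Fin 2) ℝ) (f e : Fin 2 → ℝ) :
    Lm a b c (fr R f e) := by
  have hD4 : Polynomial.C 4 * D ≠ 0 := mul_ne_zero (by simp) hD
  have hm : ∀ x, D.eval x ≠ 0 → mm a b c x =
      (Polynomial.C 4 * A * D - B ^ 2).eval x / (Polynomial.C 4 * D).eval x := by
    intro x hx
    unfold mm
    rw [hA, hB, hC]
    simp only [Polynomial.eval_sub, Polynomial.eval_mul, Polynomial.eval_C, Polynomial.eval_pow]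
    field_simp
  have hsq : ∀ M x, 0 < dd a b c M x → Real.sqrt (dd a b c M x) ^ 2 = dd a b c M x :=
    fun M x hx => Real.sq_sqrt hx.le
  have hsum : ∀ M x, D.eval x ≠ 0 → yu a b c M x + yl a b c M x = -B.eval x / D.eval x := by
    intro M x hx
    unfold yu yl
    rw [hB, hC]
    field_simp
    ring
  have hprod : ∀ M x, D.eval x ≠ 0 → 0 < dd a b c M x →
      yu a b c M x * yl a b c M x = (A - Polynomial.C M).eval x / D.eval x := by
    intro M x hx hd
    have h1 := hsq M x hd
    have h2 : yu a b c M x * yl a b c M x = (b x ^ 2 - Real.sqrt (dd a b c M x) ^ 2) / (4 * c x ^ 2) := by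
      unfold yu yl
      have hx' : c x ≠ 0 := by rw [hC]; exact hx
      field_simp
      ring
    rw [h2, h1]
    unfold dd
    rw [hA, hC]
    simp only [Polynomial.eval_sub, Polynomial.eval_C]
    field_simp
    ring
  constructor
  · intro M hM
    have h1 := rat _ _ hD4 M (hM.congr' (by filter_upwards [(ev_ne hD).1] with x hx using hm x hx))
    exact h1.congr' (by filter_upwards [(ev_ne hD).2] with x hx using (hm x hx).symm)
  · intro M hM
    have h1 := rat' _ _ hD4 M (hM.congr' (by filter_upwards [(ev_ne hD).2] with x hx using hm x hx))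
    exact h1.congr' (by filter_upwards [(ev_ne hD).1] with x hx using (hm x hx).symm)
  · intro M hd L hL
    obtain ⟨N₁, N₂, k, hN⟩ := redQ R f e (A - Polynomial.C M) B D
    have hk : D ^ k ≠ 0 := pow_ne_zero k hD
    have hq : ∀ x, D.eval x ≠ 0 → fr R f e (x, yu a b c M x) + fr R f e (x, yl a b c M x) =
        N₁.eval x / (D ^ k).eval x := fun x hx => (hN x _ _ hx (hsum M x hx) (hprod M x hx (hd x))).1
    have h1 := rat _ _ hk L (hL.congr' (by filter_upwards [(ev_ne hD).1] with x hx using hq x hx))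
    exact h1.congr' (by filter_upwards [(ev_ne hD).2] with x hx using (hq x hx).symm)
  · intro M hd L hL
    obtain ⟨N₁, N₂, k, hN⟩ := redQ R f e (A - Polynomial.C M) B D
    have hk : D ^ k ≠ 0 := pow_ne_zero k hD
    have hq : ∀ x, D.eval x ≠ 0 → fr R f e (x, yu a b c M x) * fr R f e (x, yl a b c M x) =
        N₂.eval x / (D ^ k).eval x := fun x hx => (hN x _ _ hx (hsum M x hx) (hprod M x hx (hd x))).2
    have h1 := rat _ _ hk L (hL.congr' (by filter_upwards [(ev_ne hD).1] with x hx using hq x hx))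
    exact h1.congr' (by filter_upwards [(ev_ne hD).2] with x hx using (hq x hx).symm)

private theorem dx (R : MvPolynomial (Fin 2) ℝ) (f e : Fin 2 → ℝ) (x y : ℝ) :
    HasDerivAt (fun x => fr R f e (x, y)) (dir R f f e (x, y)) x := by
  have h3 : HasDerivAt (fun x => (x, y)) ((1 : ℝ), (0 : ℝ)) x :=
    (hasDerivAt_id x).prodMk (hasDerivAt_const x y)
  have h4 := (fr_fderiv R f e (x, y)).comp_hasDerivAt x h3
  have h5 : (dir R f f e (x, y) • ContinuousLinearMap.fst ℝ ℝ ℝ +
      dir R e f e (x, y) • ContinuousLinearMap.snd ℝ ℝ ℝ) ((1 : ℝ), (0 : ℝ)) = dir R f f e (x, y) := by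
    change dir R f f e (x, y) * 1 + dir R e f e (x, y) * 0 = _
    ring
  rw [h5] at h4
  exact h4

private theorem dy (R : MvPolynomial (Fin 2) ℝ) (f e : Fin 2 → ℝ) (x y : ℝ) :
    HasDerivAt (fun y => fr R f e (x, y)) (dir R e f e (x, y)) y := by
  have h3 : HasDerivAt (fun y => (x, y)) ((0 : ℝ), (1 : ℝ)) y :=
    (hasDerivAt_const y x).prodMk (hasDerivAt_id y)
  have h4 := (fr_fderiv R f e (x, y)).comp_hasDerivAt y h3
  have h5 : (dir R f f e (x, y) • ContinuousLinearMap.fst ℝ ℝ ℝ +
      dir R e f e (x, y) • ContinuousLinearMap.snd ℝ ℝ ℝ) ((0 : ℝ), (1 : ℝ)) = dir R e f e (x, y) := by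
    change dir R f f e (x, y) * 0 + dir R e f e (x, y) * 1 = _
    ring
  rw [h5] at h4
  exact h4

private theorem finPos (G R : MvPolynomial (Fin 2) ℝ) (f e : Fin 2 → ℝ)
    (hquad : ∀ x, ∃ s r : ℝ, ∀ t : ℝ, fr G f e (x, t) = fr G f e (x, 0) + t * s + t ^ 2 * r)
    (hpos : ∀ z, 0 < dir G f f e z * dir R e f e z - dir G e f e z * dir R f f e z) {z z' : ℝ × ℝ}
    (hG : fr G f e z = fr G f e z') (hR : fr R f e z = fr R f e z') : z = z' := by
  obtain ⟨N0, h0⟩ := linP G f e 0
  obtain ⟨N1, h1⟩ := linP G f e 1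
  obtain ⟨N2, h2⟩ := linP G f e (-1)
  let a : ℝ → ℝ := fun x => fr G f e (x, 0)
  let b : ℝ → ℝ := fun x => (1 / 2) * (fr G f e (x, 1) - fr G f e (x, -1))
  let c : ℝ → ℝ := fun x => (1 / 2) * (fr G f e (x, 1) + fr G f e (x, -1)) - fr G f e (x, 0)
  let da : ℝ → ℝ := fun x => dir G f f e (x, 0)
  let db : ℝ → ℝ := fun x => (1 / 2) * (dir G f f e (x, 1) - dir G f f e (x, -1))
  let dc : ℝ → ℝ := fun x => (1 / 2) * (dir G f f e (x, 1) + dir G f f e (x, -1)) - dir G f f e (x, 0)
  have hlin : ∀ x y, fr G f e (x, y) = a x + b x * y + c x * y ^ 2 := by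
    intro x y
    obtain ⟨s, r, hs⟩ := hquad x
    have e1 := hs 1
    have e2 := hs (-1)
    change fr G f e (x, y) = fr G f e (x, 0) + (1 / 2) * (fr G f e (x, 1) - fr G f e (x, -1)) * y +
      ((1 / 2) * (fr G f e (x, 1) + fr G f e (x, -1)) - fr G f e (x, 0)) * y ^ 2
    rw [hs y, e1, e2]
    ring
  have ha : ∀ x, HasDerivAt a (da x) x := fun x => dx G f e x 0
  have hb : ∀ x, HasDerivAt b (db x) x := fun x => ((dx G f e x 1).sub (dx G f e x (-1))).const_mul (1 / 2)
  have hc : ∀ x, HasDerivAt c (dc x) x := fun x =>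
    (((dx G f e x 1).add (dx G f e x (-1))).const_mul (1 / 2)).sub (dx G f e x 0)
  have hGx : ∀ x y, dir G f f e (x, y) = da x + db x * y + dc x * y ^ 2 := by
    intro x y
    have e1 := dx G f e x y
    have e2 : HasDerivAt (fun x => fr G f e (x, y)) (da x + db x * y + dc x * y ^ 2) x := by
      have e3 : (fun x => fr G f e (x, y)) = fun x => a x + b x * y + c x * y ^ 2 := by
        funext x
        exact hlin x y
      rw [e3]
      exact ((ha x).add ((hb x).mul_const y)).add ((hc x).mul_const (y ^ 2))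
    exact e1.unique e2
  have hGy : ∀ x y, dir G e f e (x, y) = b x + 2 * c x * y := by
    intro x y
    have e1 := dy G f e x y
    have e2 : HasDerivAt (fun y => fr G f e (x, y)) (b x + 2 * c x * y) y := by
      have e3 : (fun y => fr G f e (x, y)) = fun y => a x + b x * y + c x * y ^ 2 := by
        funext y
        exact hlin x y
      rw [e3]
      have e4 := (((hasDerivAt_id' y).const_mul (b x)).const_add (a x)).add
        ((hasDerivAt_pow 2 y).const_mul (c x))
      have e5 : b x * 1 + c x * (((2 : ℕ) : ℝ) * y ^ (2 - 1)) = b x + 2 * c x * y := by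
        norm_num
        ring
      exact e5 ▸ e4
    exact e1.unique e2
  have cont : ∀ t : ℝ, Continuous fun x : ℝ => dir G f f e (x, t) := fun t =>
    (dir_cont G f f e).comp (Continuous.prodMk continuous_id continuous_const)
  have hdat : Dat a b c da db dc (fr R f e) (dir R f f e) (dir R e f e) :=
    { ha := ha
      hb := hb
      hc := hc
      hq := fr_fderiv R f e
      ca := cont 0
      cb := continuous_const.mul ((cont 1).sub (cont (-1)))
      cc := (continuous_const.mul ((cont 1).add (cont (-1)))).sub (cont 0)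
      hJ := fun x y => by
        rw [← hGx x y, ← hGy x y]
        exact hpos (x, y)
      hu := fun x K hK => fr_unb R f e x hK K }
  have hA : ∀ x, a x = N0.eval x := h0
  have hB : ∀ x, b x = (Polynomial.C (1 / 2) * (N1 - N2)).eval x := by
    intro x
    simp only [Polynomial.eval_mul, Polynomial.eval_C, Polynomial.eval_sub]
    rw [← h1, ← h2]
  have hC : ∀ x, c x = (Polynomial.C (1 / 2) * (N1 + N2) - N0).eval x := by
    intro x
    simp only [Polynomial.eval_mul, Polynomial.eval_C, Polynomial.eval_sub, Polynomial.eval_add]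
    rw [← h1, ← h2, ← h0]
  obtain ⟨x, y⟩ := z
  obtain ⟨x', y'⟩ := z'
  by_cases hD : Polynomial.C (1 / 2) * (N1 + N2) - N0 = 0
  · have hc0 : ∀ x, c x = 0 := fun x => by rw [hC, hD, Polynomial.eval_zero]
    have hdc0 : ∀ x, dc x = 0 := by
      intro x
      have e1 : HasDerivAt c 0 x := by
        have e2 : c = fun _ => (0 : ℝ) := funext hc0
        rw [e2]
        exact hasDerivAt_const x 0
      exact (hc x).unique e1
    have hexpr : ∀ z : ℝ × ℝ, (da z.1 + db z.1 * z.2) * dir R e f e z - b z.1 * dir R f f e z =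
        dir G f f e z * dir R e f e z - dir G e f e z * dir R f f e z := by
      rintro ⟨x, y⟩
      rw [hGx x y, hGy x y, hc0, hdc0]
      ring
    have hinj := core a b da db ha hb (fr R f e) (dir R f f e) (dir R e f e) (fr_fderiv R f e) (by
        have e1 : (fun z : ℝ × ℝ => (da z.1 + db z.1 * z.2) * dir R e f e z - b z.1 * dir R f f e z) =
            fun z => dir G f f e z * dir R e f e z - dir G e f e z * dir R f f e z := funext hexpr
        rw [e1]
        exact ((dir_cont G f f e).mul (dir_cont R e f e)).sub ((dir_cont G e f e).mul (dir_cont R f f e)))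
      (fun z => by
        rw [hexpr]
        exact (hpos z).ne')
      (fun x K hK => fr_unb R f e x hK K)
    apply hinj
    change (a x + b x * y, fr R f e (x, y)) = (a x' + b x' * y', fr R f e (x', y'))
    have e1 : a x + b x * y = a x' + b x' * y' := by
      have e2 := hG
      rw [hlin, hlin, hc0, hc0] at e2
      linarith
    rw [e1, hR]
  · have hfin : {x | c x = 0}.Finite := by
      have e1 : {x | c x = 0} = {x | (Polynomial.C (1 / 2) * (N1 + N2) - N0).IsRoot x} := by
        ext x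
        simp only [Set.mem_setOf_eq, Polynomial.IsRoot.def]
        rw [hC]
      rw [e1]
      exact Polynomial.finite_setOf_isRoot hD
    have e1 := mainQ hdat (lm_poly hA hB hC hD R f e) hfin (x := x) (y := y) (x' := x') (y' := y')
      (by rw [← hlin, ← hlin]; exact hG) hR
    rw [e1.1, e1.2]

private theorem eval_lin (A B : MvPolynomial (Fin 2) ℝ) (α β : ℝ) (v : Fin 2 → ℝ) :
    eval v (C α * A + C β * B) = α * eval v A + β * eval v B := by
  simp

private theorem dir_lin (A B : MvPolynomial (Fin 2) ℝ) (α β : ℝ) (u f e : Fin 2 → ℝ) (z : ℝ × ℝ) :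
    dir (C α * A + C β * B) u f e z = α * dir A u f e z + β * dir B u f e z := by
  unfold dir
  simp only [map_add, pderiv_C_mul, smul_eval, Algebra.smul_def, algebraMap_eq, map_mul, eval_C]
  ring

private theorem jac_id (P : Fin 2 → MvPolynomial (Fin 2) ℝ) (f e : Fin 2 → ℝ) (z : ℝ × ℝ) :
    dir (P 0) f f e z * dir (P 1) e f e z - dir (P 0) e f e z * dir (P 1) f f e z =
      (f 0 * e 1 - f 1 * e 0) * eval (z.1 • f + z.2 • e) (jacobian P) := by
  unfold dir jacobian
  simp only [map_sub, map_mul]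
  ring

theorem mainF (P : Fin 2 → MvPolynomial (Fin 2) ℝ) (hJ : ∀ v : Fin 2 → ℝ, eval v (jacobian P) ≠ 0)
    (α β : ℝ) (e : Fin 2 → ℝ) (hαβ : α ≠ 0 ∨ β ≠ 0) (he : e ≠ 0)
    (h : ∀ v : Fin 2 → ℝ, ∃ s r : ℝ, ∀ t : ℝ,
      α * eval (v + t • e) (P 0) + β * eval (v + t • e) (P 1) =
        α * eval v (P 0) + β * eval v (P 1) + t * s + t ^ 2 * r) :
    Function.Injective (planeMap P) := by
  have hn : 0 < α ^ 2 + β ^ 2 := by
    rcases hαβ with h1 | h1
    · have : 0 < α ^ 2 := by positivity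
      positivity
    · have : 0 < β ^ 2 := by positivity
      positivity
  have hen : 0 < e 0 ^ 2 + e 1 ^ 2 := by
    have h1 : e 0 ≠ 0 ∨ e 1 ≠ 0 := by
      by_contra hcon
      push Not at hcon
      apply he
      funext i
      fin_cases i
      · exact hcon.1
      · exact hcon.2
    rcases h1 with h1 | h1
    · have : 0 < e 0 ^ 2 := by positivity
      positivity
    · have : 0 < e 1 ^ 2 := by positivity
      positivity
  obtain ⟨f, hf0, hf1⟩ : ∃ f : Fin 2 → ℝ, f 0 = -(e 1) ∧ f 1 = e 0 := ⟨![-(e 1), e 0], rfl, rfl⟩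
  have hdet : f 0 * e 1 - f 1 * e 0 ≠ 0 := by
    rw [hf0, hf1]
    nlinarith
  set G : MvPolynomial (Fin 2) ℝ := C α * P 0 + C β * P 1 with hG
  set H : MvPolynomial (Fin 2) ℝ := C (-β) * P 0 + C α * P 1 with hH
  have hid : ∀ z : ℝ × ℝ, dir G f f e z * dir H e f e z - dir G e f e z * dir H f f e z =
      (α ^ 2 + β ^ 2) * ((f 0 * e 1 - f 1 * e 0) * eval (z.1 • f + z.2 • e) (jacobian P)) := by
    intro z
    rw [← jac_id, hG, hH, dir_lin, dir_lin, dir_lin, dir_lin]
    ring
  have hne : ∀ z : ℝ × ℝ, dir G f f e z * dir H e f e z - dir G e f e z * dir H f f e z ≠ 0 := by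
    intro z
    rw [hid]
    exact mul_ne_zero hn.ne' (mul_ne_zero hdet (hJ _))
  have hcont : Continuous fun z : ℝ × ℝ => dir G f f e z * dir H e f e z - dir G e f e z * dir H f f e z :=
    ((dir_cont G f f e).mul (dir_cont H e f e)).sub ((dir_cont G e f e).mul (dir_cont H f f e))
  have hquad : ∀ x, ∃ s r : ℝ, ∀ t : ℝ, fr G f e (x, t) = fr G f e (x, 0) + t * s + t ^ 2 * r := by
    intro x
    obtain ⟨s, r, hs⟩ := h (x • f)
    refine ⟨s, r, fun t => ?_⟩
    have h1 : ∀ t, fr G f e (x, t) = eval (x • f) G + t * s + t ^ 2 * r := by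
      intro t
      have h2 := hs t
      rw [← eval_lin, ← eval_lin, ← hG] at h2
      exact h2
    rw [h1 t, h1 0]
    ring
  have hfr : ∀ z z' : ℝ × ℝ, fr G f e z = fr G f e z' → fr H f e z = fr H f e z' → z = z' := by
    intro z z' g1 g2
    by_cases hp : ∀ z : ℝ × ℝ, 0 < dir G f f e z * dir H e f e z - dir G e f e z * dir H f f e z
    · exact finPos G H f e hquad hp g1 g2
    · push Not at hp
      obtain ⟨z₀, hz₀⟩ := hp
      have hneg : ∀ z : ℝ × ℝ, dir G f f e z * dir H e f e z - dir G e f e z * dir H f f e z < 0 := by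
        intro z
        by_contra hz
        push Not at hz
        obtain ⟨w, hw⟩ := mem_range_of_exists_le_of_exists_ge hcont ⟨z₀, hz₀⟩ ⟨z, hz⟩
        exact hne w hw
      have hdn : ∀ u z, dir (C (-1) * H + C 0 * H) u f e z = -dir H u f e z := by
        intro u z
        rw [dir_lin]
        ring
      refine finPos G (C (-1) * H + C 0 * H) f e hquad (fun z => ?_) g1 ?_
      · rw [hdn, hdn]
        have := hneg z
        nlinarith
      · have hev : ∀ w, fr (C (-1) * H + C 0 * H) f e w = -fr H f e w := by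
          intro w
          unfold fr
          rw [map_add, map_mul, map_mul, eval_C, eval_C]
          ring
        rw [hev, hev, g2]
  have hcoord : ∀ v : Fin 2 → ℝ, ∃ z : ℝ × ℝ, z.1 • f + z.2 • e = v := by
    intro v
    refine ⟨((v 0 * e 1 - v 1 * e 0) / (f 0 * e 1 - f 1 * e 0),
      (f 0 * v 1 - f 1 * v 0) / (f 0 * e 1 - f 1 * e 0)), ?_⟩
    funext i
    fin_cases i
    · change (v 0 * e 1 - v 1 * e 0) / (f 0 * e 1 - f 1 * e 0) * f 0 +
        (f 0 * v 1 - f 1 * v 0) / (f 0 * e 1 - f 1 * e 0) * e 0 = v 0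
      rw [div_mul_eq_mul_div, div_mul_eq_mul_div, ← add_div, div_eq_iff hdet]
      ring
    · change (v 0 * e 1 - v 1 * e 0) / (f 0 * e 1 - f 1 * e 0) * f 1 +
        (f 0 * v 1 - f 1 * v 0) / (f 0 * e 1 - f 1 * e 0) * e 1 = v 1
      rw [div_mul_eq_mul_div, div_mul_eq_mul_div, ← add_div, div_eq_iff hdet]
      ring
  intro v w hvw
  obtain ⟨z, rfl⟩ := hcoord v
  obtain ⟨z', rfl⟩ := hcoord w
  have e0 : eval (z.1 • f + z.2 • e) (P 0) = eval (z'.1 • f + z'.2 • e) (P 0) := congrFun hvw 0
  have e1 : eval (z.1 • f + z.2 • e) (P 1) = eval (z'.1 • f + z'.2 • e) (P 1) := congrFun hvw 1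
  have hz : z = z' := by
    apply hfr
    · unfold fr
      rw [hG, eval_lin, eval_lin, e0, e1]
    · unfold fr
      rw [hH, eval_lin, eval_lin, e0, e1]
  rw [hz]

end Pool.Agent.Lib.MP_95cf14_ag.LQ
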