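import Pool.Agent.Lib.MP_95cf14_ag.LQ.Defs

/-! The critical value of `p` on vertical lines is strictly monotone. -/

namespace Pool.Agent.Lib.MP_95cf14_ag.LQ

variable {a b c da db dc : ℝ → ℝ} {q qx qy : ℝ × ℝ → ℝ}

private theorem mm_deriv (h : Dat a b c da db dc q qx qy) {x : ℝ} (hc : c x ≠ 0) :
    HasDerivAt (mm a b c) (da x + db x * (-b x / (2 * c x)) + dc x * (-b x / (2 * c x)) ^ 2) x := by
  have h4 : (4 : ℝ) * c x ≠ 0 := mul_ne_zero (by norm_num) hc
  have h1 := (h.ha x).sub (((h.hb x).pow 2).div ((h.hc x).const_mul 4) h4)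
  have h2 : HasDerivAt (mm a b c) (da x - ((2 : ℕ) * b x ^ (2 - 1) * db x * (4 * c x) -
      b x ^ 2 * (4 * dc x)) / (4 * c x) ^ 2) x := h1
  convert h2 using 1
  field_simp
  push_cast
  ring

private theorem mm_deriv_ne (h : Dat a b c da db dc q qx qy) {x : ℝ} (hc : c x ≠ 0) :
    da x + db x * (-b x / (2 * c x)) + dc x * (-b x / (2 * c x)) ^ 2 ≠ 0 := by
  intro h0
  have h1 := h.hJ x (-b x / (2 * c x))
  have h2 : b x + 2 * c x * (-b x / (2 * c x)) = 0 := by
    field_simp
    ring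
  rw [h0, h2, zero_mul, zero_mul, sub_zero] at h1
  exact lt_irrefl _ h1

theorem mm_mono (h : Dat a b c da db dc q qx qy) {S : Set ℝ} (hS : S.OrdConnected) (hc : ∀ x ∈ S, c x ≠ 0) :
    StrictMonoOn (mm a b c) S ∨ StrictAntiOn (mm a b c) S := by
  have hconv : Convex ℝ S := hS.convex
  have hcont : ContinuousOn (mm a b c) S := fun x hx =>
    (mm_deriv h (hc x hx)).continuousAt.continuousWithinAt
  rcases hasDerivWithinAt_forall_lt_or_forall_gt_of_forall_ne hconv
    (fun x hx => (mm_deriv h (hc x hx)).hasDerivWithinAt)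
    (m := 0) (fun x hx => mm_deriv_ne h (hc x hx)) with h1 | h1
  · right
    exact strictAntiOn_of_hasDerivWithinAt_neg hconv hcont
      (fun x hx => (mm_deriv h (hc x (interior_subset hx))).hasDerivWithinAt)
      (fun x hx => h1 x (interior_subset hx))
  · left
    exact strictMonoOn_of_hasDerivWithinAt_pos hconv hcont
      (fun x hx => (mm_deriv h (hc x (interior_subset hx))).hasDerivWithinAt)
      (fun x hx => h1 x (interior_subset hx))

theorem mm_cont (h : Dat a b c da db dc q qx qy) {x : ℝ} (hc : c x ≠ 0) : ContinuousAt (mm a b c) x :=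
  (mm_deriv h hc).continuousAt

theorem dd_eq {C x : ℝ} (hc : c x ≠ 0) : dd a b c C x = 4 * c x * (C - mm a b c x) := by
  unfold dd mm
  field_simp
  ring

theorem level {x y : ℝ} (hc : c x ≠ 0) : y = yu a b c (a x + b x * y + c x * y ^ 2) x ∨
    y = yl a b c (a x + b x * y + c x * y ^ 2) x := by
  have h1 : dd a b c (a x + b x * y + c x * y ^ 2) x = (b x + 2 * c x * y) ^ 2 := by
    unfold dd
    ring
  unfold yu yl
  rw [h1, Real.sqrt_sq_eq_abs]
  have h2 : (2 : ℝ) * c x ≠ 0 := mul_ne_zero (by norm_num) hc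
  rcases abs_choice (b x + 2 * c x * y) with h3 | h3
  · left
    rw [h3, eq_div_iff h2]
    ring
  · right
    rw [h3, eq_div_iff h2]
    ring

theorem level_m {x y : ℝ} (hc : 0 < c x) : mm a b c x ≤ a x + b x * y + c x * y ^ 2 := by
  unfold mm
  have h1 : a x + b x * y + c x * y ^ 2 - (a x - b x ^ 2 / (4 * c x)) =
      (b x + 2 * c x * y) ^ 2 / (4 * c x) := by
    field_simp
    ring
  have h2 : 0 ≤ (b x + 2 * c x * y) ^ 2 / (4 * c x) := by positivity
  linarith

end Pool.Agent.Lib.MP_95cf14_ag.LQ
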