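import Pool.Agent.Lib.MP_95cf14_ag.LQ.Br
import Pool.Agent.Lib.MP_95cf14_ag.LQ.MMono

namespace Pool.Agent.Lib.MP_95cf14_ag.LQ

variable {a b c da db dc : ℝ → ℝ} {q qx qy : ℝ × ℝ → ℝ}

private theorem half_dd {C x : ℝ} (hc : 0 < c x) (h : mm a b c x < C) : 0 < dd a b c C x := by
  rw [dd_eq hc.ne']
  exact mul_pos (by linarith) (by linarith)

private theorem half_lu (h : Dat a b c da db dc q qx qy) {S : Set ℝ} (hS : S.OrdConnected)
    (hc : ∀ x ∈ S, 0 < c x) (hm : StrictMonoOn (mm a b c) S) (hunb : ∀ K, ∃ x ∈ S, K < mm a b c x)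
    {t C : ℝ} (ht : t ∈ S) (hC : mm a b c t < C) :
    q (t, yl a b c C t) < q (t, yu a b c C t) := by
  obtain ⟨x, hx, hxC⟩ := hunb C
  have htx : t < x := by
    by_contra hcon
    have h1 := hm.monotoneOn hx ht (not_lt.1 hcon)
    linarith
  have hsub : Set.Icc t x ⊆ S := hS.out ht hx
  have hcont : ContinuousOn (mm a b c) (Set.Icc t x) := fun s hs =>
    (mm_cont h (hc s (hsub hs)).ne').continuousWithinAt
  obtain ⟨z, hz, hzC⟩ := intermediate_value_Icc htx.le hcont ⟨hC.le, hxC.le⟩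
  have htz : t < z := by
    rcases hz.1.eq_or_lt with h1 | h1
    · rw [← h1] at hzC
      linarith
    · exact h1
  have hsub' : Set.Icc t z ⊆ S := hS.out ht (hsub hz)
  refine jointR h htz (fun s hs => (hc s (hsub' hs)).ne') (fun s hs => ?_) ?_
  · refine half_dd (hc s (hsub' ⟨hs.1.le, hs.2.le⟩)) ?_
    have h1 := hm (hsub' ⟨hs.1.le, hs.2.le⟩) (hsub hz) hs.2
    linarith
  · rw [dd_eq (hc z (hsub hz)).ne', hzC, sub_self, mul_zero]

private theorem half_eq {C x : ℝ} (hc : 0 < c x) (h : mm a b c x = C) :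
    yl a b c C x = yu a b c C x := by
  have h1 : dd a b c C x = 0 := by rw [dd_eq hc.ne', h, sub_self, mul_zero]
  unfold yl yu
  rw [h1, Real.sqrt_zero, sub_zero, add_zero]

private theorem half_le (h : Dat a b c da db dc q qx qy) {S : Set ℝ} (hS : S.OrdConnected)
    (hc : ∀ x ∈ S, 0 < c x) (hm : StrictMonoOn (mm a b c) S) (hunb : ∀ K, ∃ x ∈ S, K < mm a b c x)
    {t C : ℝ} (ht : t ∈ S) (hC : mm a b c t ≤ C) :
    q (t, yl a b c C t) ≤ q (t, yu a b c C t) := by
  rcases hC.eq_or_lt with h1 | h1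
  · rw [half_eq (hc t ht) h1]
  · exact (half_lu h hS hc hm hunb ht h1).le

private theorem half_ne (h : Dat a b c da db dc q qx qy) {S : Set ℝ} (hS : S.OrdConnected)
    (hc : ∀ x ∈ S, 0 < c x) (hm : StrictMonoOn (mm a b c) S) (hunb : ∀ K, ∃ x ∈ S, K < mm a b c x)
    {x y x' y' C : ℝ} (hx : x ∈ S) (hx' : x' ∈ S) (hlt : x < x')
    (hp : a x + b x * y + c x * y ^ 2 = C) (hp' : a x' + b x' * y' + c x' * y' ^ 2 = C) :
    q (x, y) ≠ q (x', y') := by
  have hsub : Set.Icc x x' ⊆ S := hS.out hx hx'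
  have hC : mm a b c x' ≤ C := by
    rw [← hp']
    exact level_m (hc x' hx')
  have hd : ∀ s ∈ Set.Ioo x x', 0 < dd a b c C s := fun s hs => by
    have h1 := hm (hsub ⟨hs.1.le, hs.2.le⟩) hx' hs.2
    exact half_dd (hc s (hsub ⟨hs.1.le, hs.2.le⟩)) (by linarith)
  have hcn : ∀ s ∈ Set.Icc x x', c s ≠ 0 := fun s hs => (hc s (hsub hs)).ne'
  have hU := brU h hlt hcn hd
  have hL := brL h hlt hcn hd
  have hle := half_le h hS hc hm hunb hx' hC
  have l1 : y = yu a b c C x ∨ y = yl a b c C x := by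
    rw [← hp]
    exact level (hc x hx).ne'
  have l2 : y' = yu a b c C x' ∨ y' = yl a b c C x' := by
    rw [← hp']
    exact level (hc x' hx').ne'
  rcases l1 with l1 | l1 <;> rcases l2 with l2 | l2 <;> rw [l1, l2]
  · exact hU.ne'
  · exact (hle.trans_lt hU).ne'
  · exact (hL.trans_le hle).ne
  · exact hL.ne

theorem half_inj (h : Dat a b c da db dc q qx qy) {S : Set ℝ} (hS : S.OrdConnected) (hc : ∀ x ∈ S, 0 < c x)
    (hm : StrictMonoOn (mm a b c) S) (hunb : ∀ K, ∃ x ∈ S, K < mm a b c x) {x y x' y' : ℝ} (hx : x ∈ S) (hx' : x' ∈ S)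
    (hp : a x + b x * y + c x * y ^ 2 = a x' + b x' * y' + c x' * y' ^ 2) (hqq : q (x, y) = q (x', y')) :
    x = x' ∧ y = y' := by
  obtain ⟨C, hC⟩ : ∃ C, a x + b x * y + c x * y ^ 2 = C := ⟨_, rfl⟩
  have hC' : a x' + b x' * y' + c x' * y' ^ 2 = C := by rw [← hp, hC]
  rcases lt_trichotomy x x' with h1 | h1 | h1
  · exact absurd hqq (half_ne h hS hc hm hunb hx hx' h1 hC hC')
  · subst h1
    refine ⟨rfl, ?_⟩
    have l1 : y = yu a b c C x ∨ y = yl a b c C x := by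
      rw [← hC]
      exact level (hc x hx).ne'
    have l2 : y' = yu a b c C x ∨ y' = yl a b c C x := by
      rw [← hC']
      exact level (hc x hx).ne'
    have hm' : mm a b c x ≤ C := by
      rw [← hC]
      exact level_m (hc x hx)
    rcases hm'.eq_or_lt with h2 | h2
    · have h3 := half_eq (hc x hx) h2
      rcases l1 with l1 | l1 <;> rcases l2 with l2 | l2 <;> rw [l1, l2]
      · exact h3.symm
      · exact h3
    · have h3 := half_lu h hS hc hm hunb hx h2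
      rcases l1 with l1 | l1 <;> rcases l2 with l2 | l2
      · rw [l1, l2]
      · rw [l1, l2] at hqq
        exact absurd hqq h3.ne'
      · rw [l1, l2] at hqq
        exact absurd hqq h3.ne
      · rw [l1, l2]
  · exact absurd hqq.symm (half_ne h hS hc hm hunb hx' hx h1 hC' hC)

theorem cross (h : Dat a b c da db dc q qx qy) {x₀ : ℝ} (h0 : c x₀ = 0) (hb : 0 < b x₀)
    (hc : ∀ x ∈ Set.Ioi x₀, 0 < c x) (hm : StrictMonoOn (mm a b c) (Set.Ioi x₀))
    (hunb : ∀ K, ∃ x ∈ Set.Ioi x₀, K < mm a b c x) {x y : ℝ} (hx : x₀ < x) :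
    q (x, y) < q (x₀, (a x + b x * y + c x * y ^ 2 - a x₀) / b x₀) := by
  obtain ⟨C, hC⟩ : ∃ C, a x + b x * y + c x * y ^ 2 = C := ⟨_, rfl⟩
  rw [hC]
  have hm' : mm a b c x ≤ C := by
    rw [← hC]
    exact level_m (hc x hx)
  have l1 : y = yu a b c C x ∨ y = yl a b c C x := by
    rw [← hC]
    exact level (hc x hx).ne'
  have h1 := crossR h (C := C) hx h0 hb (fun s hs => hc s hs.1) (fun s hs => by
    have h2 := hm (Set.mem_Ioi.2 hs.1) (Set.mem_Ioi.2 hx) hs.2
    exact half_dd (hc s hs.1) (by linarith))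
  have h2 := half_le h Set.ordConnected_Ioi hc hm hunb (Set.mem_Ioi.2 hx) hm'
  rcases l1 with l1 | l1 <;> rw [l1]
  · exact h1
  · exact h2.trans_lt h1

end Pool.Agent.Lib.MP_95cf14_ag.LQ
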