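import Pool.Agent.Lib.MP_95cf14_ag.LQ.Half
import Pool.Agent.Lib.MP_95cf14_ag.LQ.Sym

/-!
# The left half plane, by symmetry
-/

namespace Pool.Agent.Lib.MP_95cf14_ag.LQ

variable {a b c da db dc : ℝ → ℝ} {q qx qy : ℝ × ℝ → ℝ}

theorem mm_mir (x : ℝ) : mm (fun x => a (-x)) (fun x => b (-x)) (fun x => c (-x)) x = mm a b c (-x) := rfl

theorem mm_neg (x : ℝ) : mm (fun x => -a x) (fun x => -b x) (fun x => -c x) x = -mm a b c x := by
  unfold mm
  have h1 : (-b x) ^ 2 / (4 * -c x) = -(b x ^ 2 / (4 * c x)) := by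
    rw [neg_sq, mul_neg, div_neg]
  rw [h1]
  ring

theorem mm_flip (x : ℝ) : mm a (fun x => -b x) c x = mm a b c x := by
  unfold mm
  rw [neg_sq]

private theorem mirI {x₀ x : ℝ} (hx : x < x₀) : -x ∈ Set.Ioi (-x₀) := by
  change -x₀ < -x
  linarith

private theorem mirI' {x₀ x : ℝ} (hx : x ∈ Set.Ioi (-x₀)) : -x ∈ Set.Iio x₀ := by
  have h1 : -x₀ < x := hx
  change -x < x₀
  linarith

private theorem monoMir {x₀ : ℝ} (hm : StrictAntiOn (mm a b c) (Set.Iio x₀)) :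
    StrictMonoOn (mm (fun x => a (-x)) (fun x => b (-x)) (fun x => c (-x))) (Set.Ioi (-x₀)) := by
  intro u hu v hv huv
  rw [mm_mir, mm_mir]
  exact hm (mirI' hv) (mirI' hu) (neg_lt_neg huv)

theorem leftP_inj (h : Dat a b c da db dc q qx qy) {x₀ : ℝ} (hc : ∀ x ∈ Set.Iio x₀, 0 < c x)
    (hm : StrictAntiOn (mm a b c) (Set.Iio x₀)) (hunb : ∀ K, ∃ x ∈ Set.Iio x₀, K < mm a b c x)
    {x y x' y' : ℝ} (hx : x < x₀) (hx' : x' < x₀)
    (hp : a x + b x * y + c x * y ^ 2 = a x' + b x' * y' + c x' * y' ^ 2) (hqq : q (x, y) = q (x', y')) :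
    x = x' ∧ y = y' := by
  have h1 := half_inj (mirD h) (S := Set.Ioi (-x₀)) Set.ordConnected_Ioi
    (fun t ht => hc (-t) (mirI' ht)) (monoMir hm)
    (fun K => by
      obtain ⟨t, ht, hK⟩ := hunb K
      refine ⟨-t, mirI ht, ?_⟩
      rw [mm_mir, neg_neg]
      exact hK)
    (x := -x) (y := y) (x' := -x') (y' := y') (mirI hx) (mirI hx')
    (by simp only [neg_neg]; exact hp) (by simp only [neg_neg]; rw [hqq])
  exact ⟨neg_injective h1.1, h1.2⟩

theorem leftP_cross (h : Dat a b c da db dc q qx qy) {x₀ : ℝ} (h0 : c x₀ = 0) (hb : 0 < b x₀)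
    (hc : ∀ x ∈ Set.Iio x₀, 0 < c x) (hm : StrictAntiOn (mm a b c) (Set.Iio x₀))
    (hunb : ∀ K, ∃ x ∈ Set.Iio x₀, K < mm a b c x) {x y : ℝ} (hx : x < x₀) :
    q (x₀, (a x + b x * y + c x * y ^ 2 - a x₀) / b x₀) < q (x, y) := by
  have h1 := cross (mirD h) (x₀ := -x₀) (by simp only [neg_neg]; exact h0)
    (by simp only [neg_neg]; exact hb) (fun t ht => hc (-t) (mirI' ht)) (monoMir hm)
    (fun K => by
      obtain ⟨t, ht, hK⟩ := hunb K
      refine ⟨-t, mirI ht, ?_⟩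
      rw [mm_mir, neg_neg]
      exact hK)
    (x := -x) (y := y) (by linarith)
  simp only [neg_neg] at h1
  linarith

private theorem monoMirN {x₀ : ℝ} (hm : StrictMonoOn (mm a b c) (Set.Iio x₀)) :
    StrictMonoOn (mm (fun x => -a (-x)) (fun x => - -b (-x)) (fun x => -c (-x))) (Set.Ioi (-x₀)) := by
  intro u hu v hv huv
  have e : ∀ t, mm (fun x => -a (-x)) (fun x => - -b (-x)) (fun x => -c (-x)) t = -mm a b c (-t) := by
    intro t
    rw [mm_flip (a := fun x => -a (-x)) (b := fun x => -b (-x)) (c := fun x => -c (-x)),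
      mm_neg (a := fun x => a (-x)) (b := fun x => b (-x)) (c := fun x => c (-x)), mm_mir]
  rw [e, e]
  exact neg_lt_neg (hm (mirI' hv) (mirI' hu) (neg_lt_neg huv))

private theorem unbN {x₀ : ℝ} (hunb : ∀ K, ∃ x ∈ Set.Iio x₀, mm a b c x < K) (K : ℝ) :
    ∃ x ∈ Set.Ioi (-x₀), K < mm (fun x => -a (-x)) (fun x => - -b (-x)) (fun x => -c (-x)) x := by
  obtain ⟨t, ht, hK⟩ := hunb (-K)
  refine ⟨-t, mirI ht, ?_⟩
  rw [mm_flip (a := fun x => -a (-x)) (b := fun x => -b (-x)) (c := fun x => -c (-x)),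
    mm_neg (a := fun x => a (-x)) (b := fun x => b (-x)) (c := fun x => c (-x)), mm_mir, neg_neg]
  linarith

theorem leftN_inj (h : Dat a b c da db dc q qx qy) {x₀ : ℝ} (hc : ∀ x ∈ Set.Iio x₀, c x < 0)
    (hm : StrictMonoOn (mm a b c) (Set.Iio x₀)) (hunb : ∀ K, ∃ x ∈ Set.Iio x₀, mm a b c x < K)
    {x y x' y' : ℝ} (hx : x < x₀) (hx' : x' < x₀)
    (hp : a x + b x * y + c x * y ^ 2 = a x' + b x' * y' + c x' * y' ^ 2) (hqq : q (x, y) = q (x', y')) :
    x = x' ∧ y = y' := by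
  have h1 := half_inj (flipD (negD (mirD h))) (S := Set.Ioi (-x₀)) Set.ordConnected_Ioi
    (fun t ht => by have := hc (-t) (mirI' ht); linarith) (monoMirN hm) (unbN hunb)
    (x := -x) (y := -y) (x' := -x') (y' := -y') (mirI hx) (mirI hx')
    (by simp only [neg_neg]; linarith) (by simp only [neg_neg]; rw [hqq])
  exact ⟨neg_injective h1.1, neg_injective h1.2⟩

theorem leftN_cross (h : Dat a b c da db dc q qx qy) {x₀ : ℝ} (h0 : c x₀ = 0) (hb : 0 < b x₀)
    (hc : ∀ x ∈ Set.Iio x₀, c x < 0) (hm : StrictMonoOn (mm a b c) (Set.Iio x₀))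
    (hunb : ∀ K, ∃ x ∈ Set.Iio x₀, mm a b c x < K) {x y : ℝ} (hx : x < x₀) :
    q (x₀, (a x + b x * y + c x * y ^ 2 - a x₀) / b x₀) < q (x, y) := by
  have h1 := cross (flipD (negD (mirD h))) (x₀ := -x₀) (by simp only [neg_neg]; rw [h0, neg_zero])
    (by simp only [neg_neg]; exact hb) (fun t ht => by have := hc (-t) (mirI' ht); linarith)
    (monoMirN hm) (unbN hunb) (x := -x) (y := -y) (by linarith)
  simp only [neg_neg] at h1
  have e : -((-a x + b x * -y + -c x * (-y) ^ 2 - -a x₀) / b x₀) =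
      (a x + b x * y + c x * y ^ 2 - a x₀) / b x₀ := by
    rw [← neg_div]
    congr 1
    ring
  rw [e] at h1
  linarith

end Pool.Agent.Lib.MP_95cf14_ag.LQ
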