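import Pool.Agent.Lib.MP_95cf14_ag.LC.Defs

/-!
# Polynomials in two variables on the roots of a quadratic equation in the second one
-/

namespace Pool.Agent.Lib.MP_95cf14_ag.LQ

open MvPolynomial Pool.Agent.Lib.MP_95cf14_ag.LC

private theorem fr_C (r : ℝ) (f e : Fin 2 → ℝ) (z : ℝ × ℝ) : fr (C r) f e z = r := by
  simp [fr]

private theorem fr_add (R S : MvPolynomial (Fin 2) ℝ) (f e : Fin 2 → ℝ) (z : ℝ × ℝ) :
    fr (R + S) f e z = fr R f e z + fr S f e z := by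
  simp [fr]

private theorem fr_mul_X (R : MvPolynomial (Fin 2) ℝ) (i : Fin 2) (f e : Fin 2 → ℝ) (z : ℝ × ℝ) :
    fr (R * X i) f e z = fr R f e z * (z.1 * f i + z.2 * e i) := by
  simp [fr]

private theorem red1 (R : MvPolynomial (Fin 2) ℝ) (f e : Fin 2 → ℝ) (A B D : Polynomial ℝ) :
    ∃ (α β : Polynomial ℝ) (k : ℕ), ∀ x y : ℝ, D.eval x * y ^ 2 + B.eval x * y + A.eval x = 0 →
      D.eval x ^ k * fr R f e (x, y) = α.eval x + β.eval x * y := by
  induction R using MvPolynomial.induction_on with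
  | C r =>
    refine ⟨Polynomial.C r, 0, 0, fun x y _ => ?_⟩
    rw [fr_C, pow_zero, one_mul, Polynomial.eval_C, Polynomial.eval_zero, zero_mul, add_zero]
  | add R S hR hS =>
    obtain ⟨α₁, β₁, k₁, h₁⟩ := hR
    obtain ⟨α₂, β₂, k₂, h₂⟩ := hS
    refine ⟨D ^ k₂ * α₁ + D ^ k₁ * α₂, D ^ k₂ * β₁ + D ^ k₁ * β₂, k₁ + k₂, fun x y h => ?_⟩
    have e₁ := h₁ x y h
    have e₂ := h₂ x y h
    rw [fr_add]
    simp only [Polynomial.eval_add, Polynomial.eval_mul, Polynomial.eval_pow]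
    rw [pow_add]
    linear_combination (D.eval x ^ k₂) * e₁ + (D.eval x ^ k₁) * e₂
  | mul_X R i hR =>
    obtain ⟨α, β, k, h⟩ := hR
    refine ⟨D * α * Polynomial.X * Polynomial.C (f i) - A * β * Polynomial.C (e i),
      D * α * Polynomial.C (e i) + D * β * Polynomial.X * Polynomial.C (f i) - B * β * Polynomial.C (e i), k + 1,
      fun x y hxy => ?_⟩
    have h₁ := h x y hxy
    rw [fr_mul_X]
    simp only [Polynomial.eval_add, Polynomial.eval_sub, Polynomial.eval_mul, Polynomial.eval_X, Polynomial.eval_C]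
    rw [pow_succ]
    linear_combination (D.eval x * (x * f i + y * e i)) * h₁ + (β.eval x * e i) * hxy

theorem redQ (R : MvPolynomial (Fin 2) ℝ) (f e : Fin 2 → ℝ) (A B D : Polynomial ℝ) :
    ∃ (N₁ N₂ : Polynomial ℝ) (k : ℕ), ∀ x y₁ y₂ : ℝ, D.eval x ≠ 0 → y₁ + y₂ = -B.eval x / D.eval x →
      y₁ * y₂ = A.eval x / D.eval x →
      fr R f e (x, y₁) + fr R f e (x, y₂) = N₁.eval x / (D ^ k).eval x ∧
      fr R f e (x, y₁) * fr R f e (x, y₂) = N₂.eval x / (D ^ k).eval x := by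
  obtain ⟨α, β, k, h⟩ := red1 R f e A B D
  refine ⟨(2 * α * D - β * B) * D ^ k, α ^ 2 * D - α * β * B + β ^ 2 * A, 2 * k + 1, ?_⟩
  intro x y₁ y₂ hD hs hp
  have hs' : D.eval x * (y₁ + y₂) = -B.eval x := by rw [hs]; field_simp
  have hp' : D.eval x * (y₁ * y₂) = A.eval x := by rw [hp]; field_simp
  have q₁ : D.eval x * y₁ ^ 2 + B.eval x * y₁ + A.eval x = 0 := by
    linear_combination y₁ * hs' - hp'
  have q₂ : D.eval x * y₂ ^ 2 + B.eval x * y₂ + A.eval x = 0 := by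
    linear_combination y₂ * hs' - hp'
  have e₁ := h x y₁ q₁
  have e₂ := h x y₂ q₂
  have hDk : D.eval x ^ (2 * k + 1) ≠ 0 := pow_ne_zero _ hD
  simp only [Polynomial.eval_add, Polynomial.eval_sub, Polynomial.eval_mul, Polynomial.eval_pow, Polynomial.eval_ofNat]
  rw [eq_div_iff hDk, eq_div_iff hDk]
  have hpw : D.eval x ^ (2 * k + 1) = D.eval x ^ k * D.eval x ^ k * D.eval x := by ring
  rw [hpw]
  constructor
  · linear_combination (D.eval x ^ k * D.eval x) * e₁ + (D.eval x ^ k * D.eval x) * e₂ + (D.eval x ^ k * β.eval x) * hs'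
  · linear_combination (D.eval x * (D.eval x ^ k * fr R f e (x, y₂))) * e₁ + (D.eval x * (α.eval x + β.eval x * y₁)) * e₂ +
      (α.eval x * β.eval x) * hs' + (β.eval x ^ 2) * hp'

theorem linP (R : MvPolynomial (Fin 2) ℝ) (f e : Fin 2 → ℝ) (t : ℝ) :
    ∃ N : Polynomial ℝ, ∀ x, fr R f e (x, t) = N.eval x := by
  induction R using MvPolynomial.induction_on with
  | C r => exact ⟨Polynomial.C r, fun x => by rw [fr_C, Polynomial.eval_C]⟩
  | add R S hR hS =>
    obtain ⟨N₁, h₁⟩ := hR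
    obtain ⟨N₂, h₂⟩ := hS
    exact ⟨N₁ + N₂, fun x => by rw [fr_add, h₁, h₂, Polynomial.eval_add]⟩
  | mul_X R i hR =>
    obtain ⟨N, h⟩ := hR
    refine ⟨N * (Polynomial.X * Polynomial.C (f i) + Polynomial.C (t * e i)), fun x => ?_⟩
    rw [fr_mul_X, h]
    simp only [Polynomial.eval_add, Polynomial.eval_mul, Polynomial.eval_X, Polynomial.eval_C]

end Pool.Agent.Lib.MP_95cf14_ag.LQ
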