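import Pool.Agent.Lib.MP_95cf14_ag.LQ.Two
import Pool.Agent.Lib.MP_95cf14_ag.LQ.Sym

/-! The sign of `c` next to a zero of `c`, and there is at most one zero. -/

namespace Pool.Agent.Lib.MP_95cf14_ag.LQ

variable {a b c da db dc : ℝ → ℝ} {q qx qy : ℝ × ℝ → ℝ}

theorem right_sign (h : Dat a b c da db dc q qx qy) {x₀ x₁ : ℝ} (h01 : x₀ < x₁) (h0 : c x₀ = 0)
    (hc : ∀ x ∈ Set.Ioc x₀ x₁, 0 < c x) : StrictMonoOn (mm a b c) (Set.Ioc x₀ x₁) ∧
      (b x₀ = 0 → ∀ x ∈ Set.Ioc x₀ x₁, a x₀ < mm a b c x) := by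
  have hac : Continuous a := continuous_iff_continuousAt.2 fun x => (h.ha x).continuousAt
  have hbc : Continuous b := continuous_iff_continuousAt.2 fun x => (h.hb x).continuousAt
  have hcc : Continuous c := continuous_iff_continuousAt.2 fun x => (h.hc x).continuousAt
  have hle : ∀ x ∈ Set.Ioc x₀ x₁, mm a b c x ≤ a x := by
    intro x hx
    have h1 := hc x hx
    unfold mm
    have : 0 ≤ b x ^ 2 / (4 * c x) := by positivity
    linarith
  have hmono : StrictMonoOn (mm a b c) (Set.Ioc x₀ x₁) := by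
    rcases mm_mono h (S := Set.Ioc x₀ x₁) Set.ordConnected_Ioc (fun x hx => (hc x hx).ne') with h1 | h1
    · exact h1
    · exfalso
      by_cases hb : b x₀ = 0
      · have hle2 : ∀ x ∈ Set.Ioc x₀ x₁, mm a b c x ≤ a x₀ := by
          intro x hx
          have ht : Filter.Tendsto a (nhdsWithin x₀ (Set.Ioi x₀)) (nhds (a x₀)) :=
            (hac.tendsto x₀).mono_left nhdsWithin_le_nhds
          refine ge_of_tendsto ht ?_
          filter_upwards [Ioo_mem_nhdsGT hx.1] with y hy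
          have hy' : y ∈ Set.Ioc x₀ x₁ := ⟨hy.1, hy.2.le.trans hx.2⟩
          exact (h1 hy' hx hy.2).le.trans (hle y hy')
        have hlt : ∀ x ∈ Set.Ioc x₀ x₁, mm a b c x < a x₀ := by
          intro x hx
          have hm : (x₀ + x) / 2 ∈ Set.Ioc x₀ x₁ := ⟨by linarith [hx.1], by linarith [hx.1, hx.2]⟩
          exact lt_of_lt_of_le (h1 hm hx (by linarith [hx.1])) (hle2 _ hm)
        exact typeTwo h h01 h0 hb hc hlt
      · have hF : Continuous fun x => 4 * c x * (a x - mm a b c x₁) - b x ^ 2 := by fun_prop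
        have hF0 : 4 * c x₀ * (a x₀ - mm a b c x₁) - b x₀ ^ 2 < 0 := by
          rw [h0]
          have : 0 < b x₀ ^ 2 := by positivity
          linarith
        have hev : ∀ᶠ x in nhdsWithin x₀ (Set.Ioi x₀), 4 * c x * (a x - mm a b c x₁) - b x ^ 2 < 0 :=
          (hF.continuousAt.eventually_lt continuousAt_const hF0).filter_mono nhdsWithin_le_nhds
        obtain ⟨x, hx1, hx2⟩ := (hev.and (Ioo_mem_nhdsGT h01)).exists
        have hx3 : x ∈ Set.Ioc x₀ x₁ := ⟨hx2.1, hx2.2.le⟩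
        have hcx := hc x hx3
        have h3 : mm a b c x₁ < mm a b c x := h1 hx3 ⟨h01, le_refl _⟩ hx2.2
        have h4 : mm a b c x = a x - b x ^ 2 / (4 * c x) := rfl
        have h5 : 4 * c x * (b x ^ 2 / (4 * c x)) = b x ^ 2 := by
          field_simp
        have h6 : 0 < 4 * c x * (mm a b c x - mm a b c x₁) := by
          have := sub_pos.2 h3
          positivity
        have h7 : 4 * c x * (mm a b c x - mm a b c x₁) = 4 * c x * (a x - mm a b c x₁) - b x ^ 2 := by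
          rw [h4]
          linear_combination -h5
        linarith
  refine ⟨hmono, fun hb x hx => ?_⟩
  by_contra hcon
  push Not at hcon
  have h1 : x₀ < (x₀ + x) / 2 := by linarith [hx.1]
  refine typeTwo h h1 h0 hb (fun z hz => hc z ⟨hz.1, by linarith [hz.2, hx.1, hx.2]⟩) ?_
  intro z hz
  have hz' : z ∈ Set.Ioc x₀ x₁ := ⟨hz.1, by linarith [hz.2, hx.1, hx.2]⟩
  exact lt_of_lt_of_le (hmono hz' hx (by linarith [hz.2, hx.1])) hcon

theorem mm_neg (x : ℝ) : mm (fun x => -a x) (fun x => -b x) (fun x => -c x) x = -mm a b c x := by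
  unfold mm
  have : (-b x) ^ 2 / (4 * -c x) = -(b x ^ 2 / (4 * c x)) := by
    rw [neg_sq, mul_neg, div_neg]
  rw [this]
  ring

theorem right_neg (h : Dat a b c da db dc q qx qy) {x₀ x₁ : ℝ} (h01 : x₀ < x₁) (h0 : c x₀ = 0)
    (hc : ∀ x ∈ Set.Ioc x₀ x₁, c x < 0) : StrictAntiOn (mm a b c) (Set.Ioc x₀ x₁) ∧
      (b x₀ = 0 → ∀ x ∈ Set.Ioc x₀ x₁, mm a b c x < a x₀) := by
  obtain ⟨h1, h2⟩ := right_sign (negD h) h01 (by simp [h0]) (fun x hx => by linarith [hc x hx])
  refine ⟨fun x hx y hy hxy => ?_, fun hb x hx => ?_⟩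
  · have := h1 hx hy hxy
    rw [mm_neg, mm_neg] at this
    linarith
  · have := h2 (by simp [hb]) x hx
    rw [mm_neg] at this
    linarith

theorem left_pos (h : Dat a b c da db dc q qx qy) {x₀ x₁ : ℝ} (h01 : x₁ < x₀) (h0 : c x₀ = 0)
    (hc : ∀ x ∈ Set.Ico x₁ x₀, 0 < c x) : StrictAntiOn (mm a b c) (Set.Ico x₁ x₀) ∧
      (b x₀ = 0 → ∀ x ∈ Set.Ico x₁ x₀, a x₀ < mm a b c x) := by
  have hneg : ∀ x, mm (fun x => a (-x)) (fun x => b (-x)) (fun x => c (-x)) (-x) = mm a b c x := by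
    intro x
    simp only [mm, neg_neg]
  have hmem : ∀ x ∈ Set.Ico x₁ x₀, -x ∈ Set.Ioc (-x₀) (-x₁) := fun x hx =>
    ⟨by linarith [hx.2], by linarith [hx.1]⟩
  obtain ⟨h1, h2⟩ := right_sign (mirD h) (x₀ := -x₀) (x₁ := -x₁) (by linarith) (by simp [h0])
    (fun x hx => hc (-x) ⟨by linarith [hx.2], by linarith [hx.1]⟩)
  refine ⟨fun x hx y hy hxy => ?_, fun hb x hx => ?_⟩
  · have := h1 (hmem y hy) (hmem x hx) (by linarith)
    rw [hneg, hneg] at this
    exact this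
  · have := h2 (by simp [hb]) (-x) (hmem x hx)
    rw [hneg] at this
    simpa using this

theorem left_neg (h : Dat a b c da db dc q qx qy) {x₀ x₁ : ℝ} (h01 : x₁ < x₀) (h0 : c x₀ = 0)
    (hc : ∀ x ∈ Set.Ico x₁ x₀, c x < 0) : StrictMonoOn (mm a b c) (Set.Ico x₁ x₀) ∧
      (b x₀ = 0 → ∀ x ∈ Set.Ico x₁ x₀, mm a b c x < a x₀) := by
  obtain ⟨h1, h2⟩ := left_pos (negD h) h01 (by simp [h0]) (fun x hx => by linarith [hc x hx])
  refine ⟨fun x hx y hy hxy => ?_, fun hb x hx => ?_⟩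
  · have := h1 hx hy hxy
    rw [mm_neg, mm_neg] at this
    linarith
  · have := h2 (by simp [hb]) x hx
    rw [mm_neg] at this
    linarith

theorem one_zero_lt (h : Dat a b c da db dc q qx qy) (hfin : {x | c x = 0}.Finite) {u v : ℝ} (hu : c u = 0)
    (hv : c v = 0) (huv : u < v) : False := by
  have hcc : Continuous c := continuous_iff_continuousAt.2 fun x => (h.hc x).continuousAt
  have hfin2 : ({x | c x = 0} ∩ Set.Ioc u v).Finite := hfin.inter_of_left _
  have hne : ({x | c x = 0} ∩ Set.Ioc u v).Nonempty := ⟨v, hv, huv, le_refl _⟩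
  obtain ⟨w, ⟨hw0, hw1⟩, hw2⟩ := Set.exists_min_image _ id hfin2 hne
  have hnz : ∀ x ∈ Set.Ioo u w, c x ≠ 0 := by
    intro x hx hx0
    have h1 := hw2 x ⟨hx0, hx.1, hx.2.le.trans hw1.2⟩
    simp only [id] at h1
    linarith [hx.2]
  have huw : u < w := hw1.1
  have hs : (2 * u + w) / 3 ∈ Set.Ioo u w := ⟨by linarith, by linarith⟩
  have hsR : (2 * u + w) / 3 ∈ Set.Ioc u ((u + 2 * w) / 3) := ⟨by linarith, by linarith⟩
  have htR : (u + 2 * w) / 3 ∈ Set.Ioc u ((u + 2 * w) / 3) := ⟨by linarith, le_refl _⟩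
  have hsL : (2 * u + w) / 3 ∈ Set.Ico ((2 * u + w) / 3) w := ⟨le_refl _, by linarith⟩
  have htL : (u + 2 * w) / 3 ∈ Set.Ico ((2 * u + w) / 3) w := ⟨by linarith, by linarith⟩
  have hst : (2 * u + w) / 3 < (u + 2 * w) / 3 := by linarith
  have hIoo1 : ∀ x ∈ Set.Ioc u ((u + 2 * w) / 3), x ∈ Set.Ioo u w := fun x hx =>
    ⟨hx.1, by linarith [hx.2]⟩
  have hIoo2 : ∀ x ∈ Set.Ico ((2 * u + w) / 3) w, x ∈ Set.Ioo u w := fun x hx =>
    ⟨by linarith [hx.1], hx.2⟩
  rcases lt_or_gt_of_ne (hnz _ hs) with h1 | h1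
  · have hneg : ∀ x ∈ Set.Ioo u w, c x < 0 := by
      intro x hx
      by_contra hcon
      push Not at hcon
      obtain ⟨z, hz, hz0⟩ := isPreconnected_Ioo.intermediate_value hs hx hcc.continuousOn
        (⟨h1.le, hcon⟩ : (0 : ℝ) ∈ Set.Icc _ _)
      exact hnz z hz hz0
    have hA := (right_neg h (by linarith : u < (u + 2 * w) / 3) hu (fun x hx => hneg x (hIoo1 x hx))).1
      hsR htR hst
    have hB := (left_neg h (by linarith : (2 * u + w) / 3 < w) hw0 (fun x hx => hneg x (hIoo2 x hx))).1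
      hsL htL hst
    linarith
  · have hpos : ∀ x ∈ Set.Ioo u w, 0 < c x := by
      intro x hx
      by_contra hcon
      push Not at hcon
      obtain ⟨z, hz, hz0⟩ := isPreconnected_Ioo.intermediate_value hx hs hcc.continuousOn
        (⟨hcon, h1.le⟩ : (0 : ℝ) ∈ Set.Icc _ _)
      exact hnz z hz hz0
    have hA := (right_sign h (by linarith : u < (u + 2 * w) / 3) hu (fun x hx => hpos x (hIoo1 x hx))).1
      hsR htR hst
    have hB := (left_pos h (by linarith : (2 * u + w) / 3 < w) hw0 (fun x hx => hpos x (hIoo2 x hx))).1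
      hsL htL hst
    linarith

theorem one_zero (h : Dat a b c da db dc q qx qy) (hfin : {x | c x = 0}.Finite) {u v : ℝ} (hu : c u = 0)
    (hv : c v = 0) : u = v := by
  rcases lt_trichotomy u v with h1 | h1 | h1
  · exact (one_zero_lt h hfin hu hv h1).elim
  · exact h1
  · exact (one_zero_lt h hfin hv hu h1).elim

end Pool.Agent.Lib.MP_95cf14_ag.LQ
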