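import Pool.Agent.Lib.MP_95cf14_ag.LQ.Bad
import Pool.Agent.Lib.MP_95cf14_ag.LQ.Sign
import Pool.Agent.Lib.MP_95cf14_ag.LQ.Left
import Pool.Agent.Lib.MP_95cf14_ag.LQ.Red

/-!
# Injectivity for `p = a x + b x y + c x y^2`
-/

namespace Pool.Agent.Lib.MP_95cf14_ag.LQ

open Pool.Agent.Lib.MP_95cf14_ag.LC

variable {a b c da db dc : ℝ → ℝ} {q qx qy : ℝ × ℝ → ℝ}

/-- the limits at both ends of the line agree -/
structure Lm (a b c : ℝ → ℝ) (q : ℝ × ℝ → ℝ) : Prop where
  h1 : ∀ M, Filter.Tendsto (mm a b c) Filter.atTop (nhds M) → Filter.Tendsto (mm a b c) Filter.atBot (nhds M)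
  h2 : ∀ M, Filter.Tendsto (mm a b c) Filter.atBot (nhds M) → Filter.Tendsto (mm a b c) Filter.atTop (nhds M)
  h3 : ∀ M, (∀ x, 0 < dd a b c M x) → ∀ L,
    Filter.Tendsto (fun x => q (x, yu a b c M x) + q (x, yl a b c M x)) Filter.atTop (nhds L) →
      Filter.Tendsto (fun x => q (x, yu a b c M x) + q (x, yl a b c M x)) Filter.atBot (nhds L)
  h4 : ∀ M, (∀ x, 0 < dd a b c M x) → ∀ L,
    Filter.Tendsto (fun x => q (x, yu a b c M x) * q (x, yl a b c M x)) Filter.atTop (nhds L) →
      Filter.Tendsto (fun x => q (x, yu a b c M x) * q (x, yl a b c M x)) Filter.atBot (nhds L)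

private theorem dd_neg (C x : ℝ) :
    dd (fun x => -a x) (fun x => -b x) (fun x => -c x) C x = dd a b c (-C) x := by
  unfold dd
  ring

private theorem yu_neg (C x : ℝ) :
    yu (fun x => -a x) (fun x => -b x) (fun x => -c x) C x = yl a b c (-C) x := by
  unfold yu yl
  rw [dd_neg]
  have e : 2 * -c x = -(2 * c x) := by ring
  rw [e, div_neg, ← neg_div]
  congr 1
  ring

private theorem yl_neg (C x : ℝ) :
    yl (fun x => -a x) (fun x => -b x) (fun x => -c x) C x = yu a b c (-C) x := by
  unfold yu yl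
  rw [dd_neg]
  have e : 2 * -c x = -(2 * c x) := by ring
  rw [e, div_neg, ← neg_div]
  congr 1
  ring

private theorem dd_flip (C x : ℝ) : dd a (fun x => -b x) c C x = dd a b c C x := by
  unfold dd
  ring

private theorem yu_flip (C x : ℝ) : yu a (fun x => -b x) c C x = -yl a b c C x := by
  unfold yu yl
  rw [dd_flip, ← neg_div]
  congr 1
  ring

private theorem yl_flip (C x : ℝ) : yl a (fun x => -b x) c C x = -yu a b c C x := by
  unfold yu yl
  rw [dd_flip, ← neg_div]
  congr 1
  ring

private theorem Lm.neg (h : Lm a b c q) :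
    Lm (fun x => -a x) (fun x => -b x) (fun x => -c x) (fun z => -q z) := by
  have e : mm (fun x => -a x) (fun x => -b x) (fun x => -c x) = fun x => -mm a b c x := funext fun x => mm_neg x
  constructor
  · intro M hM
    rw [e] at hM ⊢
    have h1 := h.h1 (-M) (by simpa using hM.neg)
    simpa using h1.neg
  · intro M hM
    rw [e] at hM ⊢
    have h1 := h.h2 (-M) (by simpa using hM.neg)
    simpa using h1.neg
  · intro M hd L hL
    simp only [yu_neg, yl_neg] at hL ⊢
    have h1 := h.h3 (-M) (fun x => by rw [← dd_neg]; exact hd x) (-L) (by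
      refine (hL.neg).congr fun x => ?_
      ring)
    have h5 := h1.neg
    rw [neg_neg] at h5
    refine h5.congr fun x => ?_
    ring
  · intro M hd L hL
    simp only [yu_neg, yl_neg] at hL ⊢
    have h1 := h.h4 (-M) (fun x => by rw [← dd_neg]; exact hd x) L (by
      refine hL.congr fun x => ?_
      ring)
    refine h1.congr fun x => ?_
    ring

private theorem Lm.flip (h : Lm a b c q) : Lm a (fun x => -b x) c (fun z => -q (z.1, -z.2)) := by
  have e : mm a (fun x => -b x) c = mm a b c := funext fun x => mm_flip x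
  constructor
  · intro M hM
    rw [e] at hM ⊢
    exact h.h1 M hM
  · intro M hM
    rw [e] at hM ⊢
    exact h.h2 M hM
  · intro M hd L hL
    simp only [yu_flip, yl_flip, neg_neg] at hL ⊢
    have h1 := h.h3 M (fun x => by rw [← dd_flip]; exact hd x) (-L) (by
      refine (hL.neg).congr fun x => ?_
      ring)
    have h5 := h1.neg
    rw [neg_neg] at h5
    refine h5.congr fun x => ?_
    ring
  · intro M hd L hL
    simp only [yu_flip, yl_flip, neg_neg] at hL ⊢
    have h1 := h.h4 M (fun x => by rw [← dd_flip]; exact hd x) L (by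
      refine hL.congr fun x => ?_
      ring)
    refine h1.congr fun x => ?_
    ring

private theorem rightMono (h : Dat a b c da db dc q qx qy) {x₀ : ℝ} (h0 : c x₀ = 0)
    (hc : ∀ x ∈ Set.Ioi x₀, 0 < c x) : StrictMonoOn (mm a b c) (Set.Ioi x₀) := by
  intro u hu v hv huv
  have h1 := (right_sign h (x₁ := v) hv h0 (fun x hx => hc x hx.1)).1
  exact h1 ⟨hu, huv.le⟩ ⟨hv, le_refl v⟩ huv

private theorem leftAnti (h : Dat a b c da db dc q qx qy) {x₀ : ℝ} (h0 : c x₀ = 0)
    (hc : ∀ x ∈ Set.Iio x₀, 0 < c x) : StrictAntiOn (mm a b c) (Set.Iio x₀) := by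
  intro u hu v hv huv
  have h1 := (left_pos h (x₁ := u) hu h0 (fun x hx => hc x hx.2)).1
  exact h1 ⟨le_refl u, hu⟩ ⟨huv.le, hv⟩ huv

private theorem leftMono (h : Dat a b c da db dc q qx qy) {x₀ : ℝ} (h0 : c x₀ = 0)
    (hc : ∀ x ∈ Set.Iio x₀, c x < 0) : StrictMonoOn (mm a b c) (Set.Iio x₀) := by
  intro u hu v hv huv
  have h1 := (left_neg h (x₁ := u) hu h0 (fun x hx => hc x hx.2)).1
  exact h1 ⟨le_refl u, hu⟩ ⟨huv.le, hv⟩ huv

/-- a function increasing on the right and bounded has a limit, larger than its values -/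
private theorem limTop {m : ℝ → ℝ} {x₀ K : ℝ} (hm : StrictMonoOn m (Set.Ioi x₀))
    (hK : ∀ x ∈ Set.Ioi x₀, m x ≤ K) :
    ∃ M, Filter.Tendsto m Filter.atTop (nhds M) ∧ ∀ x ∈ Set.Ioi x₀, m x < M := by
  have hb : BddAbove (m '' Set.Ioi x₀) := ⟨K, by rintro _ ⟨x, hx, rfl⟩; exact hK x hx⟩
  have hle : ∀ x ∈ Set.Ioi x₀, m x ≤ sSup (m '' Set.Ioi x₀) := fun x hx => le_csSup hb ⟨x, hx, rfl⟩
  refine ⟨sSup (m '' Set.Ioi x₀), ?_, ?_⟩
  · rw [tendsto_order]
    constructor
    · intro l hl
      have hne : (m '' Set.Ioi x₀).Nonempty := ⟨m (x₀ + 1), x₀ + 1, by simp, rfl⟩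
      obtain ⟨_, ⟨x, hx, rfl⟩, hlx⟩ := exists_lt_of_lt_csSup hne hl
      filter_upwards [Filter.eventually_gt_atTop x] with t ht
      exact hlx.trans (hm hx (lt_trans hx ht) ht)
    · intro u hu
      filter_upwards [Filter.eventually_gt_atTop x₀] with t ht
      exact lt_of_le_of_lt (hle t ht) hu
  · intro x hx
    have hx1 : x + 1 ∈ Set.Ioi x₀ := by
      have h9 : x₀ < x := hx
      change x₀ < x + 1
      linarith
    exact lt_of_lt_of_le (hm hx hx1 (by linarith)) (hle _ hx1)

/-- the same on the left -/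
private theorem limBot {m : ℝ → ℝ} {x₀ K : ℝ} (hm : StrictAntiOn m (Set.Iio x₀))
    (hK : ∀ x ∈ Set.Iio x₀, m x ≤ K) :
    ∃ M, Filter.Tendsto m Filter.atBot (nhds M) ∧ ∀ x ∈ Set.Iio x₀, m x < M := by
  have h1 : StrictMonoOn (fun x => m (-x)) (Set.Ioi (-x₀)) := by
    intro u hu v hv huv
    have hu' : -u ∈ Set.Iio x₀ := by have : -x₀ < u := hu; change -u < x₀; linarith
    have hv' : -v ∈ Set.Iio x₀ := by have : -x₀ < v := hv; change -v < x₀; linarith
    exact hm hv' hu' (neg_lt_neg huv)
  obtain ⟨M, hM, hlt⟩ := limTop (K := K) h1 (fun x hx => hK (-x) (by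
    have : -x₀ < x := hx
    change -x < x₀
    linarith))
  refine ⟨M, ?_, fun x hx => ?_⟩
  · have h2 := hM.comp Filter.tendsto_neg_atBot_atTop
    refine h2.congr fun x => ?_
    simp
  · have h2 := hlt (-x) (by have : x < x₀ := hx; change -x₀ < -x; linarith)
    simpa using h2

/-- the right side of a zero of `c`: `m` is unbounded above -/
private theorem good_right (h : Dat a b c da db dc q qx qy) (hl : Lm a b c q) {x₀ : ℝ} (h0 : c x₀ = 0)
    (hb : 0 ≤ b x₀) (hc : ∀ x ∈ Set.Ioi x₀, 0 < c x)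
    (hleft : (∀ x ∈ Set.Iio x₀, 0 < c x) ∨ (∀ x ∈ Set.Iio x₀, c x < 0))
    (hII : b x₀ = 0 → ∀ x ∈ Set.Iio x₀, c x < 0) (K : ℝ) : ∃ x ∈ Set.Ioi x₀, K < mm a b c x := by
  by_contra hcon
  push Not at hcon
  have hm := rightMono h h0 hc
  obtain ⟨M, hM, hlt⟩ := limTop hm hcon
  have hMb := hl.h1 M hM
  rcases eq_or_lt_of_le hb with hb0 | hb0
  · -- `b x₀ = 0`
    have hb1 : b x₀ = 0 := hb0.symm
    have hcl := hII hb1
    have h1 := (right_sign h (x₁ := x₀ + 1) (by linarith) h0 (fun x hx => hc x hx.1)).2 hb1 (x₀ + 1)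
      ⟨by linarith, le_refl _⟩
    have h2 := (left_neg h (x₁ := x₀ - 1) (by linarith) h0 (fun x hx => hcl x hx.2)).2 hb1 (x₀ - 1)
      ⟨le_refl _, by linarith⟩
    have h3 := hlt (x₀ + 1) (by change x₀ < x₀ + 1; linarith)
    have hml := leftMono h h0 hcl
    have h4 : M ≤ mm a b c (x₀ - 1) := by
      apply le_of_tendsto hMb
      filter_upwards [Filter.eventually_lt_atBot (x₀ - 1)] with t ht
      exact (hml (by change t < x₀; linarith) (by change x₀ - 1 < x₀; linarith) ht).le
    linarith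
  · have hd : ∀ x, 0 < dd a b c M x := by
      intro x
      rcases lt_trichotomy x x₀ with hx | hx | hx
      · rcases hleft with hcl | hcl
        · have hml := leftAnti h h0 hcl
          have h5 : mm a b c x < M := by
            have h6 : mm a b c (x - 1) ≤ M := by
              apply ge_of_tendsto hMb
              filter_upwards [Filter.eventually_lt_atBot (x - 1)] with t ht
              exact (hml (by change t < x₀; linarith) (by change x - 1 < x₀; linarith) ht).le
            have h7 := hml (by change x - 1 < x₀; linarith) (show x ∈ Set.Iio x₀ from hx) (by linarith)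
            linarith
          rw [dd_eq (hcl x hx).ne']
          have := hcl x hx
          have h8 : 0 < M - mm a b c x := by linarith
          positivity
        · have hml := leftMono h h0 hcl
          have h5 : M < mm a b c x := by
            have h6 : M ≤ mm a b c (x - 1) := by
              apply le_of_tendsto hMb
              filter_upwards [Filter.eventually_lt_atBot (x - 1)] with t ht
              exact (hml (by change t < x₀; linarith) (by change x - 1 < x₀; linarith) ht).le
            have h7 := hml (show x - 1 ∈ Set.Iio x₀ by change x - 1 < x₀; linarith)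
              (show x ∈ Set.Iio x₀ from hx) (by linarith)
            linarith
          rw [dd_eq (hcl x hx).ne]
          have := hcl x hx
          nlinarith
      · rw [hx]
        unfold dd
        rw [h0]
        have : 0 < b x₀ ^ 2 := by positivity
        linarith
      · rw [dd_eq (hc x hx).ne']
        have h5 := hc x hx
        have h6 := hlt x hx
        have h8 : 0 < M - mm a b c x := by linarith
        positivity
    refine bad h h0 hb0 hc hm hd ?_ hM hMb (hl.h3 M hd) (hl.h4 M hd)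
    rcases hleft with hcl | hcl
    · exact Or.inl ⟨hcl, leftAnti h h0 hcl⟩
    · exact Or.inr ⟨hcl, leftMono h h0 hcl⟩

private theorem unb_top {m : ℝ → ℝ} {x₀ : ℝ} (hm : StrictMonoOn m (Set.Ioi x₀))
    (hunb : ∀ K, ∃ x ∈ Set.Ioi x₀, K < m x) (M : ℝ) : ¬ Filter.Tendsto m Filter.atTop (nhds M) := by
  intro hM
  obtain ⟨x, hx, hK⟩ := hunb (M + 1)
  have h1 : M + 1 ≤ M := by
    apply ge_of_tendsto hM
    filter_upwards [Filter.eventually_gt_atTop x] with t ht
    exact (hK.trans (hm hx (lt_trans hx ht) ht)).le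
  linarith

private theorem good_left_pos (hl : Lm a b c q) {x₀ : ℝ}
    (hm : StrictMonoOn (mm a b c) (Set.Ioi x₀)) (hunb : ∀ K, ∃ x ∈ Set.Ioi x₀, K < mm a b c x)
    (hml : StrictAntiOn (mm a b c) (Set.Iio x₀)) (K : ℝ) : ∃ x ∈ Set.Iio x₀, K < mm a b c x := by
  by_contra hcon
  push Not at hcon
  obtain ⟨M, hM, -⟩ := limBot hml hcon
  exact unb_top hm hunb M (hl.h2 M hM)

private theorem good_left_neg (hl : Lm a b c q) {x₀ : ℝ}
    (hm : StrictMonoOn (mm a b c) (Set.Ioi x₀)) (hunb : ∀ K, ∃ x ∈ Set.Ioi x₀, K < mm a b c x)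
    (hml : StrictMonoOn (mm a b c) (Set.Iio x₀)) (K : ℝ) : ∃ x ∈ Set.Iio x₀, mm a b c x < K := by
  by_contra hcon
  push Not at hcon
  obtain ⟨M, hM, -⟩ := limBot (m := fun x => -mm a b c x) (K := -K)
    (fun u hu v hv huv => neg_lt_neg (hml hu hv huv)) (fun x hx => neg_le_neg (hcon x hx))
  have h1 := hM.neg
  simp only [neg_neg] at h1
  exact unb_top hm hunb (-M) (hl.h2 (-M) h1)

private theorem dyq (h : Dat a b c da db dc q qx qy) (x y : ℝ) :
    HasDerivAt (fun y => q (x, y)) (qy (x, y)) y := by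
  have h3 : HasDerivAt (fun y => (x, y)) ((0 : ℝ), (1 : ℝ)) y :=
    (hasDerivAt_const y x).prodMk (hasDerivAt_id y)
  have h4 := (h.hq (x, y)).comp_hasDerivAt y h3
  have h5 : (qx (x, y) • ContinuousLinearMap.fst ℝ ℝ ℝ +
      qy (x, y) • ContinuousLinearMap.snd ℝ ℝ ℝ) ((0 : ℝ), (1 : ℝ)) = qy (x, y) := by
    change qx (x, y) * 0 + qy (x, y) * 1 = _
    ring
  rw [h5] at h4
  exact h4

/-- `q` is injective on a vertical level line -/
private theorem line_inj (h : Dat a b c da db dc q qx qy) {x₀ : ℝ} (h0 : c x₀ = 0) (hb : b x₀ = 0) {y y' : ℝ}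
    (hqq : q (x₀, y) = q (x₀, y')) : y = y' := by
  have hne : ∀ y, qy (x₀, y) ≠ 0 := by
    intro y hy
    have := h.hJ x₀ y
    rw [hy, h0, hb] at this
    simp at this
  by_contra hcon
  rcases lt_or_gt_of_ne hcon with h1 | h1
  · obtain ⟨t, -, ht⟩ := exists_hasDerivAt_eq_zero h1
      (fun t _ => (dyq h x₀ t).continuousAt.continuousWithinAt) hqq (fun t _ => dyq h x₀ t)
    exact hne t ht
  · obtain ⟨t, -, ht⟩ := exists_hasDerivAt_eq_zero h1
      (fun t _ => (dyq h x₀ t).continuousAt.continuousWithinAt) hqq.symm (fun t _ => dyq h x₀ t)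
    exact hne t ht

/-- one zero of `c`, `c` positive on the right, `b` positive there -/
private theorem caseI (h : Dat a b c da db dc q qx qy) (hl : Lm a b c q) {x₀ : ℝ} (h0 : c x₀ = 0)
    (hb : 0 < b x₀) (hc : ∀ x ∈ Set.Ioi x₀, 0 < c x)
    (hleft : (∀ x ∈ Set.Iio x₀, 0 < c x) ∨ (∀ x ∈ Set.Iio x₀, c x < 0)) {x y x' y' : ℝ}
    (hp : a x + b x * y + c x * y ^ 2 = a x' + b x' * y' + c x' * y' ^ 2) (hqq : q (x, y) = q (x', y')) :
    x = x' ∧ y = y' := by
  have hm := rightMono h h0 hc
  have hunb := good_right h hl h0 hb.le hc hleft (fun hb0 => absurd hb0 hb.ne')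
  have right : ∀ {x y : ℝ}, x₀ < x →
      q (x, y) < q (x₀, (a x + b x * y + c x * y ^ 2 - a x₀) / b x₀) := fun hx =>
    cross h h0 hb hc hm hunb hx
  have left : ∀ {x y : ℝ}, x < x₀ →
      q (x₀, (a x + b x * y + c x * y ^ 2 - a x₀) / b x₀) < q (x, y) := by
    intro x y hx
    rcases hleft with hcl | hcl
    · exact leftP_cross h h0 hb hcl (leftAnti h h0 hcl) (good_left_pos hl hm hunb (leftAnti h h0 hcl)) hx
    · exact leftN_cross h h0 hb hcl (leftMono h h0 hcl) (good_left_neg hl hm hunb (leftMono h h0 hcl)) hx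
  have leftInj : x < x₀ → x' < x₀ → x = x' ∧ y = y' := by
    intro hx hx'
    rcases hleft with hcl | hcl
    · exact leftP_inj h hcl (leftAnti h h0 hcl) (good_left_pos hl hm hunb (leftAnti h h0 hcl)) hx hx' hp hqq
    · exact leftN_inj h hcl (leftMono h h0 hcl) (good_left_neg hl hm hunb (leftMono h h0 hcl)) hx hx' hp hqq
  have mid : ∀ {y : ℝ}, (a x₀ + b x₀ * y + c x₀ * y ^ 2 - a x₀) / b x₀ = y := by
    intro y
    rw [h0]
    field_simp
    ring
  rcases lt_trichotomy x x₀ with hx | hx | hx <;> rcases lt_trichotomy x' x₀ with hx' | hx' | hx'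
  · exact leftInj hx hx'
  · exfalso
    subst hx'
    have h1 := left (y := y) hx
    rw [hp, mid, hqq] at h1
    exact lt_irrefl _ h1
  · exfalso
    have h1 := left (y := y) hx
    have h2 := right (y := y') hx'
    rw [hp] at h1
    linarith
  · exfalso
    subst hx
    have h1 := left (y := y') hx'
    rw [← hp, mid, ← hqq] at h1
    exact lt_irrefl _ h1
  · refine ⟨hx.trans hx'.symm, ?_⟩
    rw [hx, hx'] at hp
    have h1 : (a x₀ + b x₀ * y + c x₀ * y ^ 2 - a x₀) / b x₀ =
        (a x₀ + b x₀ * y' + c x₀ * y' ^ 2 - a x₀) / b x₀ := by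
      rw [hp]
    rw [mid, mid] at h1
    exact h1
  · exfalso
    subst hx
    have h1 := right (y := y') hx'
    rw [← hp, mid, ← hqq] at h1
    exact lt_irrefl _ h1
  · exfalso
    have h1 := left (y := y') hx'
    have h2 := right (y := y) hx
    rw [← hp] at h1
    linarith
  · exfalso
    subst hx'
    have h1 := right (y := y) hx
    rw [hp, mid, hqq] at h1
    exact lt_irrefl _ h1
  · exact half_inj h Set.ordConnected_Ioi hc hm hunb hx hx' hp hqq

/-- the case `b x₀ = 0` -/
private theorem caseII (h : Dat a b c da db dc q qx qy) (hl : Lm a b c q) {x₀ : ℝ} (h0 : c x₀ = 0)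
    (hb : b x₀ = 0) (hc : ∀ x ∈ Set.Ioi x₀, 0 < c x)
    (hleft : (∀ x ∈ Set.Iio x₀, 0 < c x) ∨ (∀ x ∈ Set.Iio x₀, c x < 0)) {x y x' y' : ℝ}
    (hp : a x + b x * y + c x * y ^ 2 = a x' + b x' * y' + c x' * y' ^ 2) (hqq : q (x, y) = q (x', y')) :
    x = x' ∧ y = y' := by
  have hm := rightMono h h0 hc
  have right : ∀ {x y : ℝ}, x₀ < x → a x₀ < a x + b x * y + c x * y ^ 2 := by
    intro x y hx
    have h1 := (right_sign h (x₁ := x) hx h0 (fun t ht => hc t ht.1)).2 hb x ⟨hx, le_refl x⟩
    exact lt_of_lt_of_le h1 (level_m (hc x hx))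
  have hcl : ∀ x ∈ Set.Iio x₀, c x < 0 := by
    rcases hleft with hcl | hcl
    · exfalso
      have hg : da x₀ ≠ 0 := by
        intro hg
        have := h.hJ x₀ 0
        rw [h0, hb, hg] at this
        simp at this
      have left : ∀ {x : ℝ}, x < x₀ → a x₀ < a x := by
        intro x hx
        have h1 := (left_pos h (x₁ := x) hx h0 (fun t ht => hcl t ht.2)).2 hb x ⟨le_refl x, hx⟩
        have h2 := level_m (a := a) (b := b) (y := 0) (hcl x hx)
        simp only [mul_zero, add_zero, ne_eq, OfNat.ofNat_ne_zero, not_false_eq_true, zero_pow] at h2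
        exact lt_of_lt_of_le h1 h2
      have hmin : IsLocalMin a x₀ := by
        refine Filter.Eventually.of_forall fun t => ?_
        rcases lt_trichotomy t x₀ with ht | ht | ht
        · exact (left ht).le
        · rw [ht]
        · have h2 := right (y := 0) ht
          simp only [mul_zero, add_zero, ne_eq, OfNat.ofNat_ne_zero, not_false_eq_true, zero_pow] at h2
          exact h2.le
      exact hg (hmin.hasDerivAt_eq_zero (h.ha x₀))
    · exact hcl
  have left : ∀ {x y : ℝ}, x < x₀ → a x + b x * y + c x * y ^ 2 < a x₀ := by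
    intro x y hx
    have h1 := (left_neg h (x₁ := x) hx h0 (fun t ht => hcl t ht.2)).2 hb x ⟨le_refl x, hx⟩
    have h2 := level_m (a := fun x => -a x) (b := fun x => -b x) (c := fun x => -c x) (x := x) (y := y)
      (by have := hcl x hx; linarith)
    rw [mm_neg] at h2
    linarith
  have hunb := good_right h hl h0 hb.ge hc hleft (fun _ => hcl)
  have hml := leftMono h h0 hcl
  have mid : ∀ {y : ℝ}, a x₀ + b x₀ * y + c x₀ * y ^ 2 = a x₀ := by
    intro y
    rw [h0, hb]
    ring
  rcases lt_trichotomy x x₀ with hx | hx | hx <;> rcases lt_trichotomy x' x₀ with hx' | hx' | hx'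
  · exact leftN_inj h hcl hml (good_left_neg hl hm hunb hml) hx hx' hp hqq
  · exfalso
    subst hx'
    have h1 := left (y := y) hx
    rw [hp, mid] at h1
    exact lt_irrefl _ h1
  · exfalso
    have h1 := left (y := y) hx
    have h2 := right (y := y') hx'
    linarith
  · exfalso
    subst hx
    have h1 := left (y := y') hx'
    rw [← hp, mid] at h1
    exact lt_irrefl _ h1
  · subst hx
    subst hx'
    exact ⟨rfl, line_inj h h0 hb hqq⟩
  · exfalso
    subst hx
    have h1 := right (y := y') hx'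
    rw [← hp, mid] at h1
    exact lt_irrefl _ h1
  · exfalso
    have h1 := left (y := y') hx'
    have h2 := right (y := y) hx
    linarith
  · exfalso
    subst hx'
    have h1 := right (y := y) hx
    rw [hp, mid] at h1
    exact lt_irrefl _ h1
  · exact half_inj h Set.ordConnected_Ioi hc hm hunb hx hx' hp hqq

/-- one zero of `c`, `c` positive on the right -/
private theorem caseR (h : Dat a b c da db dc q qx qy) (hl : Lm a b c q) {x₀ : ℝ} (h0 : c x₀ = 0)
    (hc : ∀ x ∈ Set.Ioi x₀, 0 < c x)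
    (hleft : (∀ x ∈ Set.Iio x₀, 0 < c x) ∨ (∀ x ∈ Set.Iio x₀, c x < 0)) {x y x' y' : ℝ}
    (hp : a x + b x * y + c x * y ^ 2 = a x' + b x' * y' + c x' * y' ^ 2) (hqq : q (x, y) = q (x', y')) :
    x = x' ∧ y = y' := by
  rcases lt_trichotomy (b x₀) 0 with hb | hb | hb
  · have h1 := caseI (flipD h) hl.flip (x₀ := x₀) h0 (by linarith) hc hleft (x := x) (y := -y) (x' := x')
      (y' := -y') (by linarith) (by simp only [neg_neg]; rw [hqq])
    exact ⟨h1.1, neg_injective h1.2⟩
  · exact caseII h hl h0 hb hc hleft hp hqq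
  · exact caseI h hl h0 hb hc hleft hp hqq

private theorem sign_S (h : Dat a b c da db dc q qx qy) {S : Set ℝ} (hS : S.OrdConnected)
    (hne : ∀ x ∈ S, c x ≠ 0) : (∀ x ∈ S, 0 < c x) ∨ ∀ x ∈ S, c x < 0 := by
  have hcc : Continuous c := continuous_iff_continuousAt.mpr fun x => (h.hc x).continuousAt
  by_contra hcon
  push Not at hcon
  obtain ⟨⟨u, hu, hu'⟩, ⟨v, hv, hv'⟩⟩ := hcon
  obtain ⟨w, hw, hw'⟩ := hS.isPreconnected.intermediate_value hu hv hcc.continuousOn ⟨hu', hv'⟩
  exact hne w hw hw'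

/-- no zero of `c`, `c` positive, `m` increasing -/
private theorem caseA (h : Dat a b c da db dc q qx qy) (hl : Lm a b c q) (hc : ∀ x, 0 < c x)
    (hm : StrictMonoOn (mm a b c) Set.univ) {x y x' y' : ℝ}
    (hp : a x + b x * y + c x * y ^ 2 = a x' + b x' * y' + c x' * y' ^ 2) (hqq : q (x, y) = q (x', y')) :
    x = x' ∧ y = y' := by
  have hunb : ∀ K, ∃ x ∈ (Set.univ : Set ℝ), K < mm a b c x := by
    intro K
    by_contra hcon
    push Not at hcon
    obtain ⟨M, hM, hlt⟩ := limTop (x₀ := 0) (hm.mono (Set.subset_univ _)) (fun x _ => hcon x (Set.mem_univ x))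
    have h1 := hl.h1 M hM
    have h2 : M ≤ mm a b c 1 := by
      apply le_of_tendsto h1
      filter_upwards [Filter.eventually_lt_atBot 1] with t ht
      exact (hm (Set.mem_univ t) (Set.mem_univ 1) ht).le
    have h3 := hlt 1 (by change (0 : ℝ) < 1; norm_num)
    linarith
  exact half_inj h Set.ordConnected_univ (fun x _ => hc x) hm hunb (Set.mem_univ x) (Set.mem_univ x') hp hqq

private theorem caseB (h : Dat a b c da db dc q qx qy) (hl : Lm a b c q) (hc : ∀ x, 0 < c x) {x y x' y' : ℝ}
    (hp : a x + b x * y + c x * y ^ 2 = a x' + b x' * y' + c x' * y' ^ 2) (hqq : q (x, y) = q (x', y')) :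
    x = x' ∧ y = y' := by
  rcases mm_mono h Set.ordConnected_univ (fun x _ => (hc x).ne') with hm | hm
  · exact caseA h hl hc hm hp hqq
  · have hunb : ∀ K, ∃ x ∈ (Set.univ : Set ℝ), K < mm (fun x => a (-x)) (fun x => b (-x)) (fun x => c (-x)) x := by
      intro K
      by_contra hcon
      push Not at hcon
      obtain ⟨M, hM, hlt⟩ := limBot (m := mm a b c) (x₀ := 0) (K := K) (hm.mono (Set.subset_univ _)) (fun x _ => by
        have := hcon (-x) (Set.mem_univ _)
        rw [mm_mir, neg_neg] at this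
        exact this)
      have h1 := hl.h2 M hM
      have h2 : M ≤ mm a b c (-1) := by
        apply le_of_tendsto h1
        filter_upwards [Filter.eventually_gt_atTop (-1)] with t ht
        exact (hm (Set.mem_univ (-1)) (Set.mem_univ t) ht).le
      have h3 := hlt (-1) (by change (-1 : ℝ) < 0; norm_num)
      linarith
    have hm' : StrictMonoOn (mm (fun x => a (-x)) (fun x => b (-x)) (fun x => c (-x))) Set.univ := by
      intro u _ v _ huv
      rw [mm_mir, mm_mir]
      exact hm (Set.mem_univ _) (Set.mem_univ _) (neg_lt_neg huv)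
    have h1 := half_inj (mirD h) Set.ordConnected_univ (fun x _ => hc (-x)) hm' hunb
      (x := -x) (y := y) (x' := -x') (y' := y') (Set.mem_univ _) (Set.mem_univ _)
      (by simp only [neg_neg]; exact hp) (by simp only [neg_neg]; rw [hqq])
    exact ⟨neg_injective h1.1, h1.2⟩

theorem mainQ (h : Dat a b c da db dc q qx qy) (hl : Lm a b c q) (hfin : {x | c x = 0}.Finite) {x y x' y' : ℝ}
    (hp : a x + b x * y + c x * y ^ 2 = a x' + b x' * y' + c x' * y' ^ 2) (hqq : q (x, y) = q (x', y')) :
    x = x' ∧ y = y' := by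
  by_cases hz : ∃ x₀, c x₀ = 0
  · obtain ⟨x₀, h0⟩ := hz
    have hne : ∀ x, x ≠ x₀ → c x ≠ 0 := fun x hx hx0 => hx (one_zero h hfin hx0 h0)
    have hL := sign_S h (S := Set.Iio x₀) Set.ordConnected_Iio (fun x hx => hne x (ne_of_lt hx))
    have hR := sign_S h (S := Set.Ioi x₀) Set.ordConnected_Ioi (fun x hx => hne x (ne_of_gt hx))
    rcases hR with hR | hR
    · exact caseR h hl h0 hR hL hp hqq
    · exact caseR (negD h) hl.neg (x₀ := x₀) (by simp only [h0, neg_zero])
        (fun x hx => by have := hR x hx; linarith)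
        (by
          rcases hL with hL | hL
          · exact Or.inr fun x hx => by have := hL x hx; linarith
          · exact Or.inl fun x hx => by have := hL x hx; linarith)
        (by linarith) (by rw [hqq])
  · push Not at hz
    rcases sign_S h (S := Set.univ) Set.ordConnected_univ (fun x _ => hz x) with hc | hc
    · exact caseB h hl (fun x => hc x (Set.mem_univ x)) hp hqq
    · exact caseB (negD h) hl.neg (fun x => by have := hc x (Set.mem_univ x); linarith) (by linarith)
        (by rw [hqq])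

end Pool.Agent.Lib.MP_95cf14_ag.LQ
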