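import Pool.Agent.Lib.MP_95cf14_ag.LQ.Br
import Pool.Agent.Lib.MP_95cf14_ag.LQ.MMono

/-! MP_95cf14_ag. A zero of `c` and `b` with critical values below `a x₀` next to it does not exist. -/

namespace Pool.Agent.Lib.MP_95cf14_ag.LQ

variable {a b c da db dc : ℝ → ℝ} {q qx qy : ℝ × ℝ → ℝ}

private theorem yu_of_nonneg {x y : ℝ} (hc : 0 < c x) (hy : 0 ≤ b x + 2 * c x * y) :
    yu a b c (a x + b x * y + c x * y ^ 2) x = y := by
  unfold yu
  have h1 : dd a b c (a x + b x * y + c x * y ^ 2) x = (b x + 2 * c x * y) ^ 2 := by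
    unfold dd
    ring
  rw [h1, Real.sqrt_sq hy, div_eq_iff (by positivity)]
  ring

private theorem yl_of_nonpos {x y : ℝ} (hc : 0 < c x) (hy : b x + 2 * c x * y ≤ 0) :
    yl a b c (a x + b x * y + c x * y ^ 2) x = y := by
  unfold yl
  have h1 : dd a b c (a x + b x * y + c x * y ^ 2) x = (-(b x + 2 * c x * y)) ^ 2 := by
    unfold dd
    ring
  rw [h1, Real.sqrt_sq (by linarith), div_eq_iff (by positivity)]
  ring

private theorem cont3 (h : Dat a b c da db dc q qx qy) :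
    Continuous a ∧ Continuous b ∧ Continuous c ∧ Continuous q :=
  ⟨continuous_iff_continuousAt.2 fun x => (h.ha x).continuousAt,
    continuous_iff_continuousAt.2 fun x => (h.hb x).continuousAt,
    continuous_iff_continuousAt.2 fun x => (h.hc x).continuousAt,
    continuous_iff_continuousAt.2 fun z => (h.hq z).continuousAt⟩

private theorem dom (h : Dat a b c da db dc q qx qy) {x₀ x₁ : ℝ} (h01 : x₀ < x₁) (h0 : c x₀ = 0) (hb : b x₀ = 0)
    (hc : ∀ x ∈ Set.Ioc x₀ x₁, 0 < c x) (hlt : ∀ x ∈ Set.Ioc x₀ x₁, mm a b c x < a x₀) (y : ℝ) :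
    ∀ᶠ η in nhdsWithin x₀ (Set.Ioi x₀), η ∈ Set.Ioo x₀ x₁ ∧
      ∀ x ∈ Set.Ioo η x₁, 0 < dd a b c (a η + b η * y + c η * y ^ 2) x := by
  obtain ⟨hac, hbc, hcc, -⟩ := cont3 h
  have hP : Continuous fun η => a η + b η * y + c η * y ^ 2 := by fun_prop
  have hT : Filter.Tendsto (fun η => a η + b η * y + c η * y ^ 2) (nhdsWithin x₀ (Set.Ioi x₀)) (nhds (a x₀)) := by
    have h3 := (hP.tendsto x₀).mono_left (nhdsWithin_le_nhds (s := Set.Ioi x₀))
    simpa [h0, hb] using h3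
  have h1 : mm a b c x₁ < a x₀ := hlt x₁ ⟨h01, le_rfl⟩
  have hmem : Set.Ioo x₀ x₁ ∈ nhdsWithin x₀ (Set.Ioi x₀) := Ioo_mem_nhdsGT h01
  filter_upwards [hT.eventually (lt_mem_nhds h1), hmem] with η hη hη'
  refine ⟨hη', fun x hx => ?_⟩
  have hxc : x ∈ Set.Ioc x₀ x₁ := ⟨hη'.1.trans hx.1, hx.2.le⟩
  have hcx := hc x hxc
  rw [dd_eq hcx.ne']
  have hηc : η ∈ Set.Ioc x₀ x₁ := ⟨hη'.1, hη'.2.le⟩
  have h2 : mm a b c x < a η + b η * y + c η * y ^ 2 := by
    rcases mm_mono h (S := Set.Ioc x₀ x₁) Set.ordConnected_Ioc (fun x hx => (hc x hx).ne') with hm | hm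
    · exact (hm hxc ⟨h01, le_rfl⟩ hx.2).trans hη
    · exact (hm hηc hxc hx.1).trans_le (level_m (hc η hηc))
  have h3 : 0 < a η + b η * y + c η * y ^ 2 - mm a b c x := by linarith
  positivity

private theorem upLim (h : Dat a b c da db dc q qx qy) {x₀ x₁ : ℝ} (h01 : x₀ < x₁) (h0 : c x₀ = 0) (hb : b x₀ = 0)
    (hc : ∀ x ∈ Set.Ioc x₀ x₁, 0 < c x) (hlt : ∀ x ∈ Set.Ioc x₀ x₁, mm a b c x < a x₀) (y : ℝ)
    (hU : ∃ᶠ η in nhdsWithin x₀ (Set.Ioi x₀), 0 ≤ b η + 2 * c η * y) :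
    q (x₁, yu a b c (a x₀) x₁) ≤ q (x₀, y) := by
  obtain ⟨hac, hbc, hcc, hqc⟩ := cont3 h
  by_contra hcon
  push Not at hcon
  have T1 : Continuous fun η : ℝ => q (η, y) := hqc.comp (by fun_prop)
  have T2 : Continuous fun η : ℝ => q (x₁, yu a b c (a η + b η * y + c η * y ^ 2) x₁) := by
    refine hqc.comp ?_
    unfold yu dd
    fun_prop
  have E : ∀ᶠ η in nhds x₀, q (η, y) < q (x₁, yu a b c (a η + b η * y + c η * y ^ 2) x₁) := by
    refine (T1.tendsto x₀).eventually_lt (T2.tendsto x₀) ?_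
    simpa [h0, hb] using hcon
  obtain ⟨η, hη, hE, hI, hd⟩ := (hU.and_eventually ((E.filter_mono nhdsWithin_le_nhds).and
    (dom h h01 h0 hb hc hlt y))).exists
  have hcη : 0 < c η := hc η ⟨hI.1, hI.2.le⟩
  have h5 := brU h hI.2 (fun x hx => (hc x ⟨hI.1.trans_le hx.1, hx.2⟩).ne') hd
  rw [yu_of_nonneg hcη hη] at h5
  exact lt_asymm hE h5

private theorem loLim (h : Dat a b c da db dc q qx qy) {x₀ x₁ : ℝ} (h01 : x₀ < x₁) (h0 : c x₀ = 0) (hb : b x₀ = 0)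
    (hc : ∀ x ∈ Set.Ioc x₀ x₁, 0 < c x) (hlt : ∀ x ∈ Set.Ioc x₀ x₁, mm a b c x < a x₀) (y : ℝ)
    (hL : ∃ᶠ η in nhdsWithin x₀ (Set.Ioi x₀), b η + 2 * c η * y ≤ 0) :
    q (x₀, y) ≤ q (x₁, yl a b c (a x₀) x₁) := by
  obtain ⟨hac, hbc, hcc, hqc⟩ := cont3 h
  by_contra hcon
  push Not at hcon
  have T1 : Continuous fun η : ℝ => q (η, y) := hqc.comp (by fun_prop)
  have T2 : Continuous fun η : ℝ => q (x₁, yl a b c (a η + b η * y + c η * y ^ 2) x₁) := by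
    refine hqc.comp ?_
    unfold yl dd
    fun_prop
  have E : ∀ᶠ η in nhds x₀, q (x₁, yl a b c (a η + b η * y + c η * y ^ 2) x₁) < q (η, y) := by
    refine (T2.tendsto x₀).eventually_lt (T1.tendsto x₀) ?_
    simpa [h0, hb] using hcon
  obtain ⟨η, hη, hE, hI, hd⟩ := (hL.and_eventually ((E.filter_mono nhdsWithin_le_nhds).and
    (dom h h01 h0 hb hc hlt y))).exists
  have hcη : 0 < c η := hc η ⟨hI.1, hI.2.le⟩
  have h5 := brL h hI.2 (fun x hx => (hc x ⟨hI.1.trans_le hx.1, hx.2⟩).ne') hd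
  rw [yl_of_nonpos hcη hη] at h5
  exact lt_asymm hE h5

private theorem qderiv (h : Dat a b c da db dc q qx qy) (x y : ℝ) :
    HasDerivAt (fun y => q (x, y)) (qy (x, y)) y := by
  have h1 : HasDerivAt (fun y : ℝ => ((x, y) : ℝ × ℝ)) ((0 : ℝ), (1 : ℝ)) y :=
    (hasDerivAt_const y x).prodMk (hasDerivAt_id y)
  have h2 := (h.hq (x, y)).comp_hasDerivAt y h1
  have h3 : (qx (x, y) • ContinuousLinearMap.fst ℝ ℝ ℝ + qy (x, y) • ContinuousLinearMap.snd ℝ ℝ ℝ)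
      ((0 : ℝ), (1 : ℝ)) = qy (x, y) := by
    simp
  rw [h3] at h2
  exact h2

/-- In a row with `c = b = 0` the derivative of `p` in `x` has one sign. -/
private theorem signG (h : Dat a b c da db dc q qx qy) {x₀ : ℝ} (h0 : c x₀ = 0) (hb : b x₀ = 0) :
    (∀ y, 0 < da x₀ + db x₀ * y + dc x₀ * y ^ 2) ∨ (∀ y, da x₀ + db x₀ * y + dc x₀ * y ^ 2 < 0) := by
  have hne : ∀ y, da x₀ + db x₀ * y + dc x₀ * y ^ 2 ≠ 0 := by
    intro y hy
    have h1 := h.hJ x₀ y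
    rw [hy, h0, hb] at h1
    simp at h1
  have hcont : Continuous fun y => da x₀ + db x₀ * y + dc x₀ * y ^ 2 := by fun_prop
  by_contra hcon
  push Not at hcon
  obtain ⟨⟨y1, h1⟩, y2, h2⟩ := hcon
  obtain ⟨y, -, hy⟩ := intermediate_value_uIcc (a := y1) (b := y2) hcont.continuousOn
    (show (0 : ℝ) ∈ Set.uIcc _ _ from Set.mem_uIcc.2 (Or.inl ⟨h1, h2⟩))
  exact hne y hy

theorem typeTwo (h : Dat a b c da db dc q qx qy) {x₀ x₁ : ℝ} (h01 : x₀ < x₁) (h0 : c x₀ = 0) (hb : b x₀ = 0)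
    (hc : ∀ x ∈ Set.Ioc x₀ x₁, 0 < c x) (hlt : ∀ x ∈ Set.Ioc x₀ x₁, mm a b c x < a x₀) : False := by
  obtain ⟨hac, hbc, hcc, hqc⟩ := cont3 h
  have hJ0 : ∀ y, 0 < (da x₀ + db x₀ * y + dc x₀ * y ^ 2) * qy (x₀, y) := by
    intro y
    have h1 := h.hJ x₀ y
    rw [h0, hb] at h1
    simpa using h1
  have hqy : ∀ y, qy (x₀, y) ≠ 0 := by
    intro y hy
    have h1 := hJ0 y
    rw [hy] at h1
    simp at h1
  have hmem : ∀ᶠ η in nhdsWithin x₀ (Set.Ioi x₀), η ∈ Set.Ioo x₀ x₁ := Ioo_mem_nhdsGT h01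
  -- not always frequently upper
  obtain ⟨Y1, hY1⟩ : ∃ Y, ¬ ∃ᶠ η in nhdsWithin x₀ (Set.Ioi x₀), 0 ≤ b η + 2 * c η * Y := by
    by_contra hcon
    push Not at hcon
    obtain ⟨y, hy⟩ := (h.hu x₀ (q (x₁, yu a b c (a x₀) x₁)) hqy).1
    have h2 := upLim h h01 h0 hb hc hlt y (hcon y)
    linarith
  obtain ⟨Y2, hY2⟩ : ∃ Y, ¬ ∃ᶠ η in nhdsWithin x₀ (Set.Ioi x₀), b η + 2 * c η * Y ≤ 0 := by
    by_contra hcon
    push Not at hcon
    obtain ⟨y, hy⟩ := (h.hu x₀ (q (x₁, yl a b c (a x₀) x₁)) hqy).2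
    have h2 := loLim h h01 h0 hb hc hlt y (hcon y)
    linarith
  rw [Filter.not_frequently] at hY1 hY2
  rcases signG h h0 hb with hg | hg
  · -- positive
    have hK : ∀ᶠ x in nhds x₀, ∀ y ∈ Set.Icc Y1 Y2, 0 < da x + db x * y + dc x * y ^ 2 := by
      refine isCompact_Icc.eventually_forall_of_forall_eventually ?_
      intro y _
      have hcont : Continuous fun z : ℝ × ℝ => da z.1 + db z.1 * z.2 + dc z.1 * z.2 ^ 2 := by
        have h1 := h.ca
        have h2 := h.cb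
        have h3 := h.cc
        fun_prop
      exact (hcont.tendsto (x₀, y)).eventually (lt_mem_nhds (hg y))
    obtain ⟨l, u, hlu, hsub⟩ := mem_nhds_iff_exists_Ioo_subset.1 hK
    have hu' : ∀ᶠ η in nhdsWithin x₀ (Set.Ioi x₀), η ∈ Set.Ioo x₀ u := Ioo_mem_nhdsGT hlu.2
    obtain ⟨η, hη1, hη2, hηI, hηu⟩ := (hY1.and (hY2.and (hmem.and hu'))).exists
    have hcη : 0 < c η := hc η ⟨hηI.1, hηI.2.le⟩
    push Not at hη1 hη2
    set y : ℝ := -b η / (2 * c η) with hy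
    have hyY1 : Y1 ≤ y := by
      rw [hy, le_div_iff₀ (by positivity)]
      linarith
    have hyY2 : y ≤ Y2 := by
      rw [hy, div_le_iff₀ (by positivity)]
      linarith
    have hmono : StrictMonoOn (fun x => a x + b x * y + c x * y ^ 2) (Set.Icc x₀ η) := by
      refine strictMonoOn_of_deriv_pos (convex_Icc _ _) (by fun_prop) ?_
      intro x hx
      rw [interior_Icc] at hx
      have hd : HasDerivAt (fun x => a x + b x * y + c x * y ^ 2) (da x + db x * y + dc x * y ^ 2) x :=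
        ((h.ha x).add ((h.hb x).mul_const y)).add ((h.hc x).mul_const (y ^ 2))
      rw [hd.deriv]
      exact hsub ⟨hlu.1.trans hx.1, hx.2.trans hηu.2⟩ y ⟨hyY1, hyY2⟩
    have h3 := hmono ⟨le_rfl, hηI.1.le⟩ ⟨hηI.1.le, le_rfl⟩ hηI.1
    simp only [h0, hb, zero_mul, add_zero] at h3
    have h4 : a η + b η * y + c η * y ^ 2 = mm a b c η := by
      unfold mm
      rw [hy]
      field_simp
      ring
    have h5 := hlt η ⟨hηI.1, hηI.2.le⟩
    linarith
  · -- negative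
    have hneg : ∀ y, qy (x₀, y) < 0 := by
      intro y
      have h1 := hJ0 y
      by_contra hcon
      push Not at hcon
      nlinarith [hg y, mul_nonneg (neg_nonneg.2 (hg y).le) hcon]
    have hanti : StrictAnti fun y => q (x₀, y) := by
      refine strictAnti_of_deriv_neg ?_
      intro y
      rw [(qderiv h x₀ y).deriv]
      exact hneg y
    obtain ⟨y, hy⟩ := (h.hu x₀ (q (x₁, yl a b c (a x₀) x₁)) hqy).2
    have key : ∀ y ≤ Y1, q (x₀, y) ≤ q (x₁, yl a b c (a x₀) x₁) := by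
      intro y hyY
      refine loLim h h01 h0 hb hc hlt y ?_
      refine Filter.Eventually.frequently ?_
      filter_upwards [hY1, hmem] with η hη hηI
      have hcη : 0 < c η := hc η ⟨hηI.1, hηI.2.le⟩
      push Not at hη
      nlinarith [mul_nonneg hcη.le (sub_nonneg.2 hyY)]
    rcases le_total y Y1 with hyY | hyY
    · have := key y hyY
      linarith
    · have h2 := key Y1 le_rfl
      have h3 : q (x₀, y) ≤ q (x₀, Y1) := hanti.antitone hyY
      linarith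

end Pool.Agent.Lib.MP_95cf14_ag.LQ
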